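import Mathlib

set_option autoImplicit false
set_option linter.all false

/-! Module Q2, abstract part: orthonormal bases adapted to a filtration. -/

open Filter Topology Set
open scoped ComplexOrder

noncomputable section

namespace Pool.Agent.helper63.NU.Q2

section
variable {H : Type*} [NormedAddCommGroup H] [InnerProductSpace ℂ H] [FiniteDimensional ℂ H]

theorem exists_onb (W : Submodule ℂ H) : ∃ s : Fin (Module.finrank ℂ W) → H,
    Orthonormal ℂ s ∧ Submodule.span ℂ (Set.range s) = W := by
  set b := stdOrthonormalBasis ℂ W with hb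
  refine ⟨fun j => (b j : H), b.orthonormal.comp_linearIsometry W.subtypeₗᵢ, ?_⟩
  have h1 : Set.range (fun j => (b j : H)) = W.subtype '' Set.range b := by
    rw [← Set.range_comp]
    rfl
  rw [h1, Submodule.span_image]
  have h2 : Submodule.span ℂ (Set.range b) = ⊤ := by
    have := b.toBasis.span_eq
    rwa [b.coe_toBasis] at this
  rw [h2, Submodule.map_top, Submodule.range_subtype]

theorem adapted (A : ℕ) : ∀ V : ℕ → Submodule ℂ H, (∀ m, V (m + 1) ≤ V m) →
    ∃ (ι : Type) (_ : Fintype ι) (s : ι → H) (m : ι → ℕ), Orthonormal ℂ s ∧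
      Submodule.span ℂ (Set.range s) = V 0 ∧ (∀ j, s j ∈ V (m j)) ∧ (∀ j, m j ≤ A) ∧
      ∀ i ≤ A, Module.finrank ℂ (V i) = (Finset.univ.filter fun j => i ≤ m j).card := by
  induction A with
  | zero =>
    intro V hV
    obtain ⟨s, hs, hspan⟩ := exists_onb (V 0)
    refine ⟨Fin (Module.finrank ℂ (V 0)), inferInstance, s, fun _ => 0, hs, hspan, ?_,
      fun _ => le_rfl, ?_⟩
    · intro j
      rw [← hspan]
      exact Submodule.subset_span ⟨j, rfl⟩
    · intro i hi
      have : i = 0 := Nat.le_zero.1 hi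
      subst this
      simp
  | succ A ih =>
    intro V hV
    obtain ⟨ι, hι, s, m, hs, hspan, hsV, hmA, hcard⟩ := ih (fun i => V (i + 1)) fun i => hV (i + 1)
    obtain ⟨w, hw, hwspan⟩ := exists_onb ((V 1)ᗮ ⊓ V 0)
    have hws : ∀ j, w j ∈ (V 1)ᗮ ⊓ V 0 := by
      intro j
      rw [← hwspan]
      exact Submodule.subset_span ⟨j, rfl⟩
    have hss : ∀ j, s j ∈ V 1 := by
      intro j
      have h1 : s j ∈ Submodule.span ℂ (Set.range s) := Submodule.subset_span ⟨j, rfl⟩
      rw [hspan] at h1
      exact h1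
    have horth : Orthonormal ℂ (Sum.elim s w) := by
      refine ⟨?_, ?_⟩
      · rintro (i | i)
        · exact hs.1 i
        · exact hw.1 i
      · rintro (i | i) (j | j) hij
        · exact hs.2 fun h => hij (by rw [h])
        · exact Submodule.inner_right_of_mem_orthogonal (hss i) (hws j).1
        · exact Submodule.inner_left_of_mem_orthogonal (hss j) (hws i).1
        · exact hw.2 fun h => hij (by rw [h])
    have hsp : Submodule.span ℂ (Set.range (Sum.elim s w)) = V 0 := by
      rw [Set.Sum.elim_range, Submodule.span_union, hspan, hwspan]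
      exact Submodule.sup_orthogonal_inf_of_hasOrthogonalProjection (hV 0)
    refine ⟨ι ⊕ Fin _, inferInstance, Sum.elim s w, Sum.elim (fun j => m j + 1) fun _ => 0, horth,
      hsp, ?_, ?_, ?_⟩
    · rintro (j | j)
      · exact hsV j
      · exact (hws j).2
    · rintro (j | j)
      · exact Nat.succ_le_succ (hmA j)
      · exact Nat.zero_le _
    · intro i hi
      rcases i with _ | i
      · have h1 := finrank_span_eq_card horth.linearIndependent
        rw [hsp] at h1
        rw [h1]
        simp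
      · rw [hcard i (Nat.le_of_succ_le_succ hi), Finset.card_filter, Finset.card_filter,
          Fintype.sum_sum_type]
        simp

theorem adapted_fin (A : ℕ) (V : ℕ → Submodule ℂ H) (hV : ∀ m, V (m + 1) ≤ V m) :
    ∃ (N : ℕ) (s : Fin N → H) (m : Fin N → ℕ), Orthonormal ℂ s ∧
      Submodule.span ℂ (Set.range s) = V 0 ∧ (∀ j, s j ∈ V (m j)) ∧ (∀ j, m j ≤ A) ∧
      ∀ i ≤ A, Module.finrank ℂ (V i) = (Finset.univ.filter fun j => i ≤ m j).card := by
  obtain ⟨ι, hι, s, m, hs, hspan, hsV, hmA, hcard⟩ := adapted A V hV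
  set e := Fintype.equivFin ι with he
  refine ⟨Fintype.card ι, s ∘ e.symm, m ∘ e.symm, hs.comp _ e.symm.injective, ?_,
    fun j => hsV _, fun j => hmA _, fun i hi => ?_⟩
  · rw [e.symm.surjective.range_comp]
    exact hspan
  · rw [hcard i hi, Finset.card_filter, Finset.card_filter]
    exact (Equiv.sum_comp e.symm fun j => if i ≤ m j then 1 else 0).symm

end

section
variable {D : Type*} [AddCommGroup D] [Module ℂ D]

theorem core_adapted [FiniteDimensional ℂ D] (c : InnerProductSpace.Core ℂ D)
    (A : ℕ) (V : ℕ → Submodule ℂ D) (hV : ∀ m, V (m + 1) ≤ V m) :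
    ∃ (N : ℕ) (s : Fin N → D) (m : Fin N → ℕ),
      (∀ i j, c.inner (s i) (s j) = if i = j then 1 else 0) ∧
      Submodule.span ℂ (Set.range s) = V 0 ∧ (∀ j, s j ∈ V (m j)) ∧ (∀ j, m j ≤ A) ∧
      ∀ i ≤ A, Module.finrank ℂ (V i) = (Finset.univ.filter fun j => i ≤ m j).card := by
  letI : NormedAddCommGroup D := c.toNormedAddCommGroup
  letI : InnerProductSpace ℂ D := InnerProductSpace.ofCore c.toCore
  obtain ⟨N, s, m, h1, h2, h3, h4, h5⟩ := adapted_fin (H := D) A V hV
  exact ⟨N, s, m, orthonormal_iff_ite.1 h1, h2, h3, h4, h5⟩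

theorem core_fd (c : InnerProductSpace.Core ℂ D) (B : ℕ)
    (h : ∀ (N : ℕ) (s : Fin N → D), (∀ i j, c.inner (s i) (s j) = if i = j then 1 else 0) →
      N ≤ B) : FiniteDimensional ℂ D := by
  letI : NormedAddCommGroup D := c.toNormedAddCommGroup
  letI : InnerProductSpace ℂ D := InnerProductSpace.ofCore c.toCore
  have h1 : Module.rank ℂ D ≤ B := by
    apply rank_le
    intro s hs
    have h2 : LinearIndependent ℂ (fun i : Fin s.card => ((s.equivFin.symm i : s) : D)) :=
      hs.comp _ s.equivFin.symm.injective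
    exact h s.card _ (orthonormal_iff_ite.1 (InnerProductSpace.gramSchmidtNormed_orthonormal h2))
  exact Module.rank_lt_aleph0_iff.1 (h1.trans_lt (Cardinal.natCast_lt_aleph0))

end

end Pool.Agent.helper63.NU.Q2
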