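import Pool.Agent.helper74.NU.B6d

set_option autoImplicit false

/-! Module B6: global regularity (weakly holomorphic `L²` limits of sections are holomorphic). -/

open MeasureTheory Filter Topology Set
open scoped ContDiff Manifold Matrix ENNReal ComplexOrder

noncomputable section

namespace Pool.Agent.helper74.NU

open Pool.Agent.helper63.NU

variable {n : ℕ} {M : Type*} [TopologicalSpace M] [ChartedSpace (E n) M]
  [IsManifold 𝓘(ℂ, E n) ω M]
variable [CompactSpace M] [T2Space M]
variable [MeasurableSpace M] [BorelSpace M] {μ : Measure M} {φ : Fam n M ℝ}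

/-- the limit in a chart is weakly holomorphic -/
theorem LimIn.dbar (hφ : IsWeight 1 φ) (hμ : IsDens μ φ) {k : ℕ} {ψ : Fam n M ℝ}
    (hψ : IsPos (k + 1) ψ) {v w : ℕ → Fam n M ℂ} (hv : ∀ i, IsSec k (v i))
    (hw : ∀ i, IsSec k (w i))
    (ha : ∀ ε > 0, ∃ N, ∀ m ≥ N, ∀ j ≥ N, (ip μ φ ψ (w m - v j) (w m - v j)).re ≤ ε)
    (hd : ∀ ε > 0, ∃ N, ∀ m ≥ N, (dp μ φ ψ (w m) (w m)).re ≤ ε)
    {e : Ch n M} (he : e ∈ atlas (E n) M) {F : E n → ℂ} (hF : LimIn ψ v e F)
    (u : E n → ℂ) (hu : ContDiff ℝ ∞ u) (hc : HasCompactSupport u) (hsu : tsupport u ⊆ e.target)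
    (j : Fin n) :
    ∫ y, (F y * (Real.exp (ψ e y / 2) : ℂ)) * db j u y = 0 := by
  have hW := hψ.toIsWeight
  -- `w m → F`
  have hFw : Tendsto (fun i => ∫ y in e.target, ‖wf ψ (w i) e y - F y‖ ^ 2) atTop (𝓝 0) := by
    have t1 : Tendsto (fun i => (ip μ φ ψ (w i - v i) (w i - v i)).re) atTop (𝓝 0) := by
      rw [Metric.tendsto_atTop]
      intro δ hδ
      obtain ⟨K, hK⟩ := ha (δ / 2) (by positivity)
      refine ⟨K, fun m' hm' => ?_⟩
      rw [Real.dist_eq, sub_zero, abs_of_nonneg (ip_self_nonneg μ φ ψ _)]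
      linarith [hK m' hm' m' hm']
    have t2 : Tendsto (fun i => 2 * (ip μ φ ψ (w i - v i) (w i - v i)).re +
        2 * ∫ y in e.target, ‖wf ψ (v i) e y - F y‖ ^ 2) atTop (𝓝 0) := by
      simpa using (t1.const_mul 2).add (hF.2.const_mul 2)
    refine squeeze_zero (fun i => integral_nonneg fun y => by positivity) (fun i => ?_) t2
    have m1 := (sec_memLp hφ hμ hW ((hw i).sub (hv i)) he).1
    have m2 : MemLp (fun y => wf ψ (v i) e y - F y) 2 (volume.restrict e.target) :=
      (sec_memLp hφ hμ hW (hv i) he).1.sub hF.1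
    have h1 := integral_sq_add_le m1 m2
    have h2 : ∀ y, wf ψ (w i) e y - F y = wf ψ (w i - v i) e y + (wf ψ (v i) e y - F y) := by
      intro y
      rw [wf_sub]
      ring
    simp only [h2]
    refine h1.trans (add_le_add ?_ le_rfl)
    exact mul_le_mul_of_nonneg_left (sec_le_ip hφ hμ hW ((hw i).sub (hv i)) he) (by norm_num)
  have hdbc : ContDiff ℝ ∞ (db j u) := contDiff_db hu j
  have hz : ∀ y, y ∉ tsupport u → db j u y = 0 := fun y hy =>
    image_eq_zero_of_notMem_tsupport fun h => hy (tsupport_db_subset u j h)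
  set G : E n → ℂ := fun y => (Real.exp (ψ e y / 2) : ℂ) * db j u y with hG
  have hGm : MemLp G 2 (volume.restrict e.target) :=
    memLp_of_supp e.open_target hc hsu ((contOn_exp hW he).mul hdbc.continuous.continuousOn)
      (fun y _ hy => by simp only [hG]; rw [hz y hy, mul_zero])
  have h1 := tendsto_integral_mul (fun i => (sec_memLp hφ hμ hW (hw i) he).1) hF.1 hGm hFw
  have h2 : ∀ i, ∫ y in e.target, wf ψ (w i) e y * G y = -∫ y, db j (w i e) y * u y := by
    intro i
    rw [integral_db_mul e.open_target ((hw i).smooth e he) hu hc hsu j, neg_neg]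
    have e1 : ∫ y, w i e y * db j u y = ∫ y in e.target, w i e y * db j u y :=
      (setIntegral_eq_integral_of_forall_compl_eq_zero
        (fun y hy => by rw [hz y fun h => hy (hsu h), mul_zero])).symm
    rw [e1]
    refine integral_congr_ae (Eventually.of_forall fun y => ?_)
    simp only [hG]
    rw [← mul_assoc, wf_mul_exp]
  obtain ⟨C, hC0, hC⟩ := local_le_dp hφ hμ hψ he hc hsu
  have hum : MemLp u 2 (volume.restrict (tsupport u)) :=
    (hu.continuous.memLp_of_hasCompactSupport hc).restrict _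
  have h3 : ∀ i, ‖∫ y, db j (w i e) y * u y‖ ≤
      Real.sqrt (C * (dp μ φ ψ (w i) (w i)).re) * Real.sqrt (∫ y in tsupport u, ‖u y‖ ^ 2) := by
    intro i
    rw [← setIntegral_eq_integral_of_forall_compl_eq_zero (s := tsupport u)
      (fun y hy => by rw [image_eq_zero_of_notMem_tsupport hy, mul_zero])]
    have hcont : ContinuousOn (db j (w i e)) (tsupport u) :=
      ((contDiffOn_db e.open_target ((hw i).smooth e he) j).continuousOn).mono hsu
    have hm : MemLp (db j (w i e)) 2 (volume.restrict (tsupport u)) := by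
      obtain ⟨B, hB⟩ := hc.isCompact.exists_bound_of_continuousOn hcont
      have hm0 : AEStronglyMeasurable (db j (w i e)) (volume.restrict (tsupport u)) :=
        hcont.aestronglyMeasurable hc.isCompact.measurableSet
      have : IsFiniteMeasure (volume.restrict (tsupport u)) :=
        ⟨by rw [Measure.restrict_apply_univ]; exact hc.isCompact.measure_lt_top⟩
      exact MemLp.of_bound hm0 B ((ae_restrict_iff' hc.isCompact.measurableSet).2
        (Eventually.of_forall hB))
    refine (norm_integral_mul_le hm hum).trans ?_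
    exact mul_le_mul_of_nonneg_right (Real.sqrt_le_sqrt (hC (w i) (hw i) j)) (Real.sqrt_nonneg _)
  have h4 : Tendsto (fun i => ∫ y in e.target, wf ψ (w i) e y * G y) atTop (𝓝 0) := by
    have t1 : Tendsto (fun i => (dp μ φ ψ (w i) (w i)).re) atTop (𝓝 0) := by
      rw [Metric.tendsto_atTop]
      intro δ hδ
      obtain ⟨K, hK⟩ := hd (δ / 2) (by positivity)
      refine ⟨K, fun m' hm' => ?_⟩
      rw [Real.dist_eq, sub_zero, abs_of_nonneg (dp_self_nonneg hφ hμ hψ (hw m'))]
      linarith [hK m' hm']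
    have t2 : Tendsto (fun i => Real.sqrt (C * (dp μ φ ψ (w i) (w i)).re) *
        Real.sqrt (∫ y in tsupport u, ‖u y‖ ^ 2)) atTop (𝓝 0) := by
      have := ((t1.const_mul C).sqrt).mul_const (Real.sqrt (∫ y in tsupport u, ‖u y‖ ^ 2))
      simpa using this
    refine squeeze_zero_norm (fun i => ?_) t2
    rw [h2, norm_neg]
    exact h3 i
  have h5 := tendsto_nhds_unique h1 h4
  rw [← setIntegral_eq_integral_of_forall_compl_eq_zero (s := e.target)
    (fun y hy => by rw [hz y fun h => hy (hsu h), mul_zero]), ← h5]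
  refine integral_congr_ae (Eventually.of_forall fun y => ?_)
  simp only [hG]
  ring

/-- almost everywhere convergence on `M` -/
theorem ae_chart (hφ : IsWeight 1 φ) (hμ : IsDens μ φ) {v : ℕ → Fam n M ℂ} {e : Ch n M}
    (he : e ∈ atlas (E n) M) {g : E n → ℂ}
    (h : ∀ᵐ y ∂(volume.restrict e.target), Tendsto (fun i => v i e y) atTop (𝓝 (g y))) :
    ∀ᵐ x ∂(μ.restrict e.source), Tendsto (fun i => v i e (e x)) atTop (𝓝 (g (e x))) := by
  rw [ae_restrict_iff_chart hφ hμ he]
  filter_upwards [h, ae_restrict_mem e.open_target.measurableSet] with y hy hyt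
  rw [e.right_inv hyt]
  exact hy

end Pool.Agent.helper74.NU

namespace Pool.Agent.helper63.NU

open Pool.Agent.helper74.NU

variable {n : ℕ} {M : Type*} [TopologicalSpace M] [ChartedSpace (E n) M]
  [IsManifold 𝓘(ℂ, E n) ω M]
variable [CompactSpace M] [T2Space M]
variable [MeasurableSpace M] [BorelSpace M] {μ : Measure M} {φ : Fam n M ℝ}

theorem lemR (hφ : IsWeight 1 φ) (hμ : IsDens μ φ) {k : ℕ} {ψ : Fam n M ℝ}
    (hψ : IsPos (k + 1) ψ) {v : ℕ → Fam n M ℂ} (hv : ∀ i, IsSec k (v i))
    (hcau : ∀ ε > 0, ∃ N, ∀ i ≥ N, ∀ i' ≥ N, (ip μ φ ψ (v i - v i') (v i - v i')).re ≤ ε)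
    (horth : ∀ u : Fam n M ℂ, IsSec k u → Tendsto (fun i => ip μ φ ψ (v i) (box ψ u)) atTop (𝓝 0)) :
    ∃ h : Fam n M ℂ, IsHol k h ∧ Tendsto (fun i => (ip μ φ ψ (v i - h) (v i - h)).re) atTop (𝓝 0) := by
  classical
  have hW := hψ.toIsWeight
  obtain ⟨w, hw, ha, hb⟩ := exists_w hφ hμ hψ hv hcau horth
  -- the energy of `w m` tends to zero
  have hd : ∀ ε > 0, ∃ N, ∀ m ≥ N, (dp μ φ ψ (w m) (w m)).re ≤ ε :=
    energy_tendsto_zero (form_ip (n := n) (M := M) (k := k) hφ hμ hW)
      (form_dp (n := n) (M := M) hφ hμ hψ)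
      (L := fun a => (⟨box ψ a.1, box_isSec hψ a.2⟩ : secM n M k))
      (fun a b => ip_box hφ hμ hψ a.2 b.2)
      (v := fun i => ⟨v i, hv i⟩) (w := fun i => ⟨w i, hw i⟩) ha hb
      (fun u => horth u.1 u.2)
  have hex : ∀ e : Ch n M, ∃ (F g : E n → ℂ), e ∈ atlas (E n) M → LimIn ψ v e F ∧
      DifferentiableOn ℂ g e.target ∧
      ∀ᵐ y ∂(volume.restrict e.target), F y * (Real.exp (ψ e y / 2) : ℂ) = g y := by
    intro e
    by_cases he : e ∈ atlas (E n) M
    · obtain ⟨F, hF⟩ := exists_limIn hφ hμ hψ hv hcau he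
      obtain ⟨g, hg1, hg2⟩ := weyl e.open_target
        (r := fun y => F y * (Real.exp (ψ e y / 2) : ℂ))
        (fun K hK hKe => hF.loc hW he K hK hKe)
        (fun u hu hc hsu j => hF.dbar hφ hμ hψ hv hw ha hd he u hu hc hsu j)
      exact ⟨F, g, fun _ => ⟨hF, hg1, hg2⟩⟩
    · exact ⟨0, 0, fun h => absurd h he⟩
  choose F g hFg using hex
  -- the transformation rule
  have htrans : ∀ e ∈ atlas (E n) M, ∀ e' ∈ atlas (E n) M, ∀ x ∈ e.source ∩ e'.source,
      g e' (e' x) = jac e e' (e x) ^ k * g e (e x) := by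
    intro e he e' he'
    obtain ⟨hF, hg1, hg2⟩ := hFg e he
    obtain ⟨hF', hg1', hg2'⟩ := hFg e' he'
    obtain ⟨ns, hns, h1⟩ := hF.subseq hφ hμ hψ hv he strictMono_id
    obtain ⟨ns', hns', h2⟩ := hF'.subseq hφ hμ hψ hv he' hns
    have h1' : ∀ᵐ x ∂(μ.restrict e.source),
        Tendsto (fun i => v (ns (ns' i)) e (e x)) atTop (𝓝 (g e (e x))) := by
      refine ae_chart (v := fun i => v (ns (ns' i))) hφ hμ he ?_
      filter_upwards [h1, hg2] with y hy hy2
      rw [← hy2]
      exact hy.comp hns'.tendsto_atTop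
    have h2' : ∀ᵐ x ∂(μ.restrict e'.source),
        Tendsto (fun i => v (ns (ns' i)) e' (e' x)) atTop (𝓝 (g e' (e' x))) := by
      refine ae_chart (v := fun i => v (ns (ns' i))) hφ hμ he' ?_
      filter_upwards [h2, hg2'] with y hy hy2
      rw [← hy2]
      exact hy
    have hopen : IsOpen (e.source ∩ e'.source) := e.open_source.inter e'.open_source
    have hae : ∀ᵐ x ∂(μ.restrict (e.source ∩ e'.source)),
        g e' (e' x) = jac e e' (e x) ^ k * g e (e x) := by
      have a1 := ae_restrict_of_ae_restrict_of_subset (inter_subset_left (t := e'.source)) h1'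
      have a2 := ae_restrict_of_ae_restrict_of_subset (inter_subset_right (s := e.source)) h2'
      filter_upwards [a1, a2, ae_restrict_mem hopen.measurableSet] with x hx1 hx2 hx
      refine tendsto_nhds_unique hx2 ?_
      have : ∀ i, v (ns (ns' i)) e' (e' x) =
          jac e e' (e x) ^ k * v (ns (ns' i)) e (e x) :=
        fun i => (hv _).trans e he e' he' x hx
      simp only [this]
      exact hx1.const_mul _
    have := isOpenPosMeasure_of_isDens hφ hμ
    have c1 : ContinuousOn (fun x => g e' (e' x)) (e.source ∩ e'.source) :=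
      hg1'.continuousOn.comp (e'.continuousOn.mono inter_subset_right)
        fun x hx => e'.map_source hx.2
    have c2 : ContinuousOn (fun x => jac e e' (e x) ^ k * g e (e x)) (e.source ∩ e'.source) := by
      refine ContinuousOn.mul (ContinuousOn.pow ?_ k) ?_
      · refine (jac_analytic he he').continuousOn.comp (e.continuousOn.mono inter_subset_left) ?_
        intro x hx
        refine ⟨e.map_source hx.1, ?_⟩
        rw [mem_preimage, e.left_inv hx.1]
        exact hx.2
      · exact hg1.continuousOn.comp (e.continuousOn.mono inter_subset_left)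
          fun x hx => e.map_source hx.1
    exact Measure.eqOn_open_of_ae_eq hae hopen c1 c2
  have hhol : IsHol k (g : Fam n M ℂ) := isHol_of (fun e he => (hFg e he).2.1) htrans
  refine ⟨g, hhol, ?_⟩
  -- convergence
  obtain ⟨N, p, χ, hχs, hχ0, hχ1, hχt⟩ :=
    exists_partition (n := n) (M := M) (fun _ => univ) (fun _ => univ_mem)
  set c : Fin N → Ch n M := fun i => chartAt (E n) (p i) with hcdef
  have hc : ∀ i, c i ∈ atlas (E n) M := fun i => chart_mem_atlas (E n) (p i)
  have hcov : ∀ x, ∃ i, x ∈ (c i).source := by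
    intro x
    by_contra hn
    push Not at hn
    have : ∀ i ∈ (Finset.univ : Finset (Fin N)), χ i x = 0 := fun i _ =>
      image_eq_zero_of_notMem_tsupport fun h => hn i ((hχt i) h).2
    have h1 := hχ1 x
    rw [Finset.sum_eq_zero this] at h1
    exact zero_ne_one h1
  have hsub : ∀ i, IsSec k (v i - g) := fun i => (hv i).sub hhol.toIsSec
  have ht : Tendsto (fun i => ∑ l, ∫ y in (c l).target, ‖wf ψ (v i - g) (c l) y‖ ^ 2) atTop
      (𝓝 0) := by
    have : Tendsto (fun i => ∑ l, ∫ y in (c l).target, ‖wf ψ (v i - g) (c l) y‖ ^ 2) atTop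
        (𝓝 (∑ _l : Fin N, 0)) := by
      refine tendsto_finsetSum _ fun l _ => ?_
      obtain ⟨hF, _, hg2⟩ := hFg (c l) (hc l)
      refine hF.2.congr fun i => ?_
      refine integral_congr_ae (hg2.mono fun y hy => ?_)
      simp only
      rw [wf_sub]
      congr 3
      unfold wf
      rw [← hy, mul_assoc, ← Complex.ofReal_mul, ← Real.exp_add, neg_div, add_neg_cancel,
        Real.exp_zero, Complex.ofReal_one, mul_one]
    simpa using this
  refine squeeze_zero (fun i => ip_self_nonneg μ φ ψ _) (fun i => ?_) ht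
  exact ip_le_sum hφ hμ hW hc hcov (hsub i)

end Pool.Agent.helper63.NU
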