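import Pool.Agent.helper63.NU.Defs3
import Pool.Agent.helper99.NU.C5
import Pool.Agent.helper41.NU.B2c
import Pool.Agent.helper74.NU.Q2a

set_option autoImplicit false
set_option linter.all false

/-! Module Q2: the spaces `H0 k`. -/

open MeasureTheory Filter Topology Set
open scoped ContDiff Manifold Matrix ENNReal ComplexOrder

noncomputable section

namespace Pool.Agent.helper63.NU

variable {n : ℕ} {M : Type*} [TopologicalSpace M] [ChartedSpace (E n) M]
  [IsManifold 𝓘(ℂ, E n) ω M]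
variable [CompactSpace M] [T2Space M] [ConnectedSpace M]
variable [MeasurableSpace M] [BorelSpace M] {μ : Measure M} {φ : Fam n M ℝ}

theorem H0_mul {k l : ℕ} {s t : Fam n M ℂ} (hs : s ∈ H0 n M k) (ht : t ∈ H0 n M l) :
    s * t ∈ H0 n M (k + l) := by
  obtain ⟨hs1, hs2⟩ := hs
  obtain ⟨ht1, ht2⟩ := ht
  refine ⟨⟨⟨fun e he => (hs1.smooth e he).mul (ht1.smooth e he), fun e he e' he' x hx => ?_⟩,
    fun e he => (hs1.hol e he).mul (ht1.hol e he)⟩, fun e y h => ?_⟩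
  · change s e' (e' x) * t e' (e' x) = _ * (s e (e x) * t e (e x))
    rw [hs1.trans e he e' he' x hx, ht1.trans e he e' he' x hx, pow_add]
    ring
  · change s e y * t e y = 0
    rw [hs2 e y h, zero_mul]

theorem H0_pow {k : ℕ} {s : Fam n M ℂ} (hs : s ∈ H0 n M k) (l : ℕ) (hl : 1 ≤ l) :
    s ^ l ∈ H0 n M (l * k) := by
  induction l, hl using Nat.le_induction with
  | base => rw [pow_one, one_mul]; exact hs
  | succ l _ ih =>
    rw [pow_succ, Nat.succ_mul]
    exact H0_mul ih hs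

theorem H0_eq_zero {k : ℕ} {s : Fam n M ℂ} (hs : s ∈ H0 n M k) {e : Ch n M}
    (he : e ∈ atlas (E n) M) {p : E n} (hp : p ∈ e.target) (h : ∀ᶠ y in 𝓝 p, s e y = 0) :
    s = 0 := by
  obtain ⟨hs1, hs2⟩ := hs
  obtain ⟨V, hV1, hV2, hV3⟩ := eventually_nhds_iff.1 (h.and (e.open_target.mem_nhds hp))
  have h1 := hs1.eq_zero he hV2 ⟨p, hV3⟩ (fun y hy => (hV1 y hy).2) fun y hy => (hV1 y hy).1
  funext e' y
  by_cases hc : e' ∈ atlas (E n) M ∧ y ∈ e'.target
  · exact h1 e' hc.1 y hc.2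
  · exact hs2 e' y hc

theorem H0_mul_ne_zero {k l : ℕ} {s t : Fam n M ℂ} (hs : s ∈ H0 n M k) (ht : t ∈ H0 n M l)
    (hs0 : s ≠ 0) (ht0 : t ≠ 0) : s * t ≠ 0 := by
  intro hst
  apply hs0
  funext e y
  by_contra hne
  have hne' : s e y ≠ 0 := hne
  have hc : e ∈ atlas (E n) M ∧ y ∈ e.target := by
    by_contra hc
    exact hne' (hs.2 e y hc)
  apply ht0
  apply H0_eq_zero ht hc.1 hc.2
  have hcont : ContinuousAt (s e) y :=
    (hs.1.smooth e hc.1).continuousOn.continuousAt (e.open_target.mem_nhds hc.2)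
  filter_upwards [hcont.eventually_ne hne'] with z hz
  have h1 : s e z * t e z = 0 := by
    have := congrFun (congrFun hst e) z
    exact this
  exact (mul_eq_zero.1 h1).resolve_left hz

/-- normalisation of a holomorphic section -/
theorem exists_H0 {k : ℕ} {s : Fam n M ℂ} (hs : IsHol k s) :
    ∃ t ∈ H0 n M k, ∀ e ∈ atlas (E n) M, ∀ y ∈ e.target, t e y = s e y := by
  classical
  obtain ⟨t, ht⟩ : ∃ t : Fam n M ℂ, t = fun e y =>
    if e ∈ atlas (E n) M ∧ y ∈ e.target then s e y else 0 := ⟨_, rfl⟩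
  have h1 : ∀ e ∈ atlas (E n) M, ∀ y ∈ e.target, t e y = s e y := by
    intro e he y hy
    rw [ht]
    exact if_pos ⟨he, hy⟩
  refine ⟨t, ⟨⟨⟨fun e he => (hs.smooth e he).congr fun y hy => h1 e he y hy,
    fun e he e' he' x hx => ?_⟩, fun e he => (hs.hol e he).congr fun y hy => h1 e he y hy⟩,
    fun e y h => ?_⟩, h1⟩
  · rw [h1 e he _ (e.map_source hx.1), h1 e' he' _ (e'.map_source hx.2), hs.trans e he e' he' x hx]
  · rw [ht]
    exact if_neg h

namespace Q2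

open C5

theorem eq_zero_of_val {k : ℕ} {s : Fam n M ℂ} (hs : s ∈ H0 n M k) (hφ : IsPos 1 φ)
    (h : ∀ x, val s x = 0) : s = 0 := by
  funext e y
  by_cases hc : e ∈ atlas (E n) M ∧ y ∈ e.target
  · obtain ⟨he, hy⟩ := hc
    have hx : e.symm y ∈ e.source := e.map_target hy
    have h1 := nrm_eq (φ := φ) hφ.toIsWeight hs.1.toIsSec he hx
    rw [e.right_inv hy, nrm_val, h (e.symm y)] at h1
    have h2 : ‖s e y‖ ^ 2 * Real.exp (-(k * φ e y)) = 0 := by
      rw [← h1]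
      simp
    rcases mul_eq_zero.1 h2 with h3 | h3
    · exact norm_eq_zero.1 (pow_eq_zero_iff (two_ne_zero) |>.1 h3)
    · exact absurd h3 (Real.exp_pos _).ne'
  · exact hs.2 e y hc

/-- the scalar product on `H0 k` -/
@[instance_reducible]
def core (hφ : IsPos 1 φ) (hμ : IsDens μ φ) (k : ℕ) : InnerProductSpace.Core ℂ (H0 n M k) where
  inner s t := bf μ φ k (t : Fam n M ℂ) (s : Fam n M ℂ)
  conj_inner_symm s t := bf_conj μ φ k _ _
  re_inner_nonneg s := by
    change 0 ≤ (bf μ φ k (s : Fam n M ℂ) (s : Fam n M ℂ)).re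
    rw [bf_self, Complex.ofReal_re]
    exact integral_nonneg fun x => mul_nonneg (nrm_nonneg k φ s x) (dl_pos hφ x).le
  add_left s t u := by
    change bf μ φ k (u : Fam n M ℂ) ((s : Fam n M ℂ) + (t : Fam n M ℂ)) = _
    rw [← bf_conj, bf_add_left hφ hμ s.2.1.toIsSec t.2.1.toIsSec u.2.1.toIsSec, map_add, bf_conj,
      bf_conj]
  smul_left s t r := by
    change bf μ φ k (t : Fam n M ℂ) (r • (s : Fam n M ℂ)) = _
    rw [bf_smul_right]
  definite s h := by
    have h1 : bf μ φ k (s : Fam n M ℂ) (s : Fam n M ℂ) = 0 := h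
    rw [bf_self] at h1
    apply Subtype.ext
    exact eq_zero_of_val s.2 hφ (val_eq_zero hφ hμ s.2.1.toIsSec (by exact_mod_cast h1))

theorem core_inner (hφ : IsPos 1 φ) (hμ : IsDens μ φ) (k : ℕ) (s t : H0 n M k) :
    (core hφ hμ k).inner s t = bf μ φ k (t : Fam n M ℂ) (s : Fam n M ℂ) := rfl

/-- upper bound for the sum of squares of an orthonormal family -/
theorem orth_upper (hφ : IsPos 1 φ) (hμ : IsDens μ φ) {k : ℕ} {C : ℝ} (hC : 0 < C)
    (hCle : ∀ s : Fam n M ℂ, IsHol k s → ∀ x, nrm k φ s x ≤ C * (k : ℝ) ^ n *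
      ∫ x, nrm k φ s x * dl φ x ∂μ) {N : ℕ} {b : Fin N → Fam n M ℂ} (hb : ∀ j, IsHol k (b j))
    (horth : ∀ i j, bf μ φ k (b i) (b j) = if i = j then 1 else 0) (x : M) :
    ∑ j, nrm k φ (b j) x ≤ C * (k : ℝ) ^ n := by
  set c : Fin N → ℂ := fun j => (starRingEnd ℂ) (val (b j) x) with hc
  have ht : IsHol k (∑ j, c j • b j) := IsHol.sum _ fun j _ => (hb j).smul _
  have hv : ∀ y, val (∑ j, c j • b j) y = ∑ j, c j * val (b j) y := fun y => by
    rw [val_sum]
    simp only [val_smul]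
  have hn := norm_comb (μ := μ) hφ hμ (fun j => (hb j).toIsSec) horth c hv
  have hle := hCle _ ht x
  rw [hn] at hle
  set σ : ℝ := ∑ j, ‖c j‖ ^ 2 with hσ
  have hval : val (∑ j, c j • b j) x = (σ : ℂ) := by
    rw [hv, hσ]
    push_cast
    refine Finset.sum_congr rfl fun j _ => ?_
    rw [hc]
    simp only
    rw [mul_comm, Complex.mul_conj, Complex.normSq_eq_norm_sq, RCLike.norm_conj]
    push_cast
    rfl
  have hσ0 : 0 ≤ σ := Finset.sum_nonneg fun j _ => sq_nonneg _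
  have hnn : nrm k φ (∑ j, c j • b j) x = σ * (σ * wt k φ x) := by
    rw [nrm_val, hval, Complex.norm_real, Real.norm_of_nonneg hσ0]
    ring
  have hsum : ∑ j, nrm k φ (b j) x = σ * wt k φ x := by
    simp only [nrm_val]
    rw [← Finset.sum_mul, hσ]
    congr 1
    refine Finset.sum_congr rfl fun j _ => ?_
    rw [hc]
    simp only
    rw [RCLike.norm_conj]
  rw [hsum]
  rw [hnn] at hle
  rcases hσ0.eq_or_lt with h | h
  · rw [← h, zero_mul]
    positivity
  · have : σ * (σ * wt k φ x) ≤ σ * (C * (k : ℝ) ^ n) := by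
      calc σ * (σ * wt k φ x) ≤ C * (k : ℝ) ^ n * σ := hle
        _ = σ * (C * (k : ℝ) ^ n) := by ring
    exact le_of_mul_le_mul_left this h

theorem integrable_nrm (hφ : IsPos 1 φ) (hμ : IsDens μ φ) {k : ℕ} {s : Fam n M ℂ}
    (hs : IsSec k s) : Integrable (fun x => nrm k φ s x * dl φ x) μ := by
  haveI := isFiniteMeasure_of_isDens hφ.toIsWeight hμ
  have hc : Continuous (fun x => nrm k φ s x * dl φ x) :=
    (continuous_nrm hφ.toIsWeight hs).mul (continuous_dl hφ)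
  exact hc.integrable_of_hasCompactSupport (HasCompactSupport.of_compactSpace _)

theorem integrable_dl (hφ : IsPos 1 φ) (hμ : IsDens μ φ) : Integrable (fun x => dl φ x) μ := by
  haveI := isFiniteMeasure_of_isDens hφ.toIsWeight hμ
  exact (continuous_dl hφ).integrable_of_hasCompactSupport (HasCompactSupport.of_compactSpace _)

/-- mass of an orthonormal family -/
theorem orth_mass (hφ : IsPos 1 φ) (hμ : IsDens μ φ) {k : ℕ} {N : ℕ} {b : Fin N → Fam n M ℂ}
    (hb : ∀ j, IsHol k (b j)) (horth : ∀ i j, bf μ φ k (b i) (b j) = if i = j then 1 else 0) :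
    ∫ x, (∑ j, nrm k φ (b j) x) * dl φ x ∂μ = N := by
  have h1 : ∀ j, ∫ x, nrm k φ (b j) x * dl φ x ∂μ = 1 := by
    intro j
    have h2 := horth j j
    rw [if_pos rfl, bf_self] at h2
    exact_mod_cast h2
  simp_rw [Finset.sum_mul]
  rw [integral_finset_sum _ fun j _ => integrable_nrm hφ hμ (hb j).toIsSec]
  simp only [h1]
  simp

theorem orth_card (hφ : IsPos 1 φ) (hμ : IsDens μ φ) {k : ℕ} {C : ℝ} (hC : 0 < C)
    (hCle : ∀ s : Fam n M ℂ, IsHol k s → ∀ x, nrm k φ s x ≤ C * (k : ℝ) ^ n *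
      ∫ x, nrm k φ s x * dl φ x ∂μ) {N : ℕ} {b : Fin N → Fam n M ℂ} (hb : ∀ j, IsHol k (b j))
    (horth : ∀ i j, bf μ φ k (b i) (b j) = if i = j then 1 else 0) :
    (N : ℝ) ≤ C * (k : ℝ) ^ n * ∫ x, dl φ x ∂μ := by
  rw [← orth_mass hφ hμ hb horth, ← integral_const_mul]
  apply integral_mono
  · simp_rw [Finset.sum_mul]
    exact integrable_finset_sum _ fun j _ => integrable_nrm hφ hμ (hb j).toIsSec
  · exact (integrable_dl hφ hμ).const_mul _
  · intro x
    exact mul_le_mul_of_nonneg_right (orth_upper hφ hμ hC hCle hb horth x) (dl_pos hφ x).le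

end Q2

open Q2 C5

theorem H0_finiteDimensional (hφ : IsPos 1 φ) (hμ : IsDens μ φ) {k : ℕ} (hk : 1 ≤ k) :
    FiniteDimensional ℂ (H0 n M k) := by
  obtain ⟨C, hC, hCle⟩ := nrm_le hφ hμ
  apply core_fd (core hφ hμ k) ⌊C * (k : ℝ) ^ n * ∫ x, dl φ x ∂μ⌋₊
  intro N s hs
  apply Nat.le_floor
  apply orth_card hφ hμ hC (hCle k hk) (b := fun j => (s j : Fam n M ℂ)) fun j => (s j).2.1
  intro i j
  have h1 := hs j i
  rw [core_inner] at h1
  rw [h1]
  simp only [eq_comm]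

theorem onb_card (hφ : IsPos 1 φ) (hμ : IsDens μ φ) {k : ℕ} (hk : 1 ≤ k) {N : ℕ}
    {s : Fin N → Fam n M ℂ} (hs : IsONB μ φ k s) :
    N = Module.finrank ℂ (H0 n M k) ∧ ∫ x, (∑ j, nrm k φ (s j) x) * dl φ x ∂μ = N := by
  obtain ⟨h1, h2, h3⟩ := hs
  refine ⟨?_, orth_mass hφ hμ (fun j => (h1 j).1) h2⟩
  have hspan : Submodule.span ℂ (Set.range s) = H0 n M k := by
    apply le_antisymm _ h3
    rw [Submodule.span_le]
    rintro _ ⟨j, rfl⟩
    exact h1 j
  have hli : LinearIndependent ℂ s := by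
    rw [Fintype.linearIndependent_iff]
    intro c hc i
    have h4 := bf_sum_left (μ := μ) hφ hμ c (fun j => (h1 j).1.toIsSec) (h1 i).1.toIsSec
    rw [hc] at h4
    have h5 : bf μ φ k (0 : Fam n M ℂ) (s i) = 0 := by
      have := bf_smul_left μ φ k 0 (0 : Fam n M ℂ) (s i)
      rw [zero_smul, zero_mul] at this
      exact this
    rw [h5] at h4
    have h6 : ∀ j, bf μ φ k (s j) (s i) = if j = i then 1 else 0 := fun j => h2 j i
    simp only [h6, mul_ite, mul_one, mul_zero, Finset.sum_ite_eq', Finset.mem_univ, if_true] at h4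
    exact h4.symm
  have h7 := finrank_span_eq_card hli
  rw [hspan, Fintype.card_fin] at h7
  exact h7.symm

/-- an orthonormal basis adapted to a decreasing filtration -/
theorem onb_adapted (hφ : IsPos 1 φ) (hμ : IsDens μ φ) {k : ℕ} (hk : 1 ≤ k)
    (V : ℕ → Submodule ℂ (Fam n M ℂ)) (hV0 : V 0 = H0 n M k) (hV : ∀ m, V (m + 1) ≤ V m) (A : ℕ) :
    ∃ (N : ℕ) (s : Fin N → Fam n M ℂ) (m : Fin N → ℕ), IsONB μ φ k s ∧ (∀ j, s j ∈ V (m j)) ∧
      (∀ j, m j ≤ A) ∧
      ∀ i ≤ A, Module.finrank ℂ (V i) = (Finset.univ.filter fun j => i ≤ m j).card := by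
  haveI := H0_finiteDimensional (n := n) (M := M) hφ hμ hk
  have hVle : ∀ i, V i ≤ H0 n M k := by
    intro i
    induction i with
    | zero => exact hV0.le
    | succ i ih => exact (hV i).trans ih
  obtain ⟨N, s, m, h1, h2, h3, h4, h5⟩ := core_adapted (core hφ hμ k) A
    (fun i => (V i).comap (H0 n M k).subtype) fun i => Submodule.comap_mono (hV i)
  refine ⟨N, fun j => (s j : Fam n M ℂ), m, ⟨fun j => (s j).2, ?_, ?_⟩, fun j => h3 j, h4, ?_⟩
  · intro i j
    have h6 := h1 j i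
    rw [core_inner] at h6
    change bf μ φ k _ _ = _
    rw [h6]
    simp only [eq_comm]
  · have h6 : Set.range (fun j => (s j : Fam n M ℂ)) = (H0 n M k).subtype '' Set.range s := by
      rw [← Set.range_comp]
      rfl
    rw [h6, Submodule.span_image, h2, hV0]
    rw [Submodule.comap_subtype_self, Submodule.map_top, Submodule.range_subtype]
  · intro i hi
    rw [← h5 i hi]
    exact (LinearEquiv.finrank_eq (Submodule.comapSubtypeEquivOfLe (hVle i))).symm

theorem onb_exists (hφ : IsPos 1 φ) (hμ : IsDens μ φ) {k : ℕ} (hk : 1 ≤ k) :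
    ∃ (N : ℕ) (s : Fin N → Fam n M ℂ), IsONB μ φ k s := by
  obtain ⟨N, s, m, h1, -⟩ := onb_adapted (n := n) (M := M) hφ hμ hk (fun _ => H0 n M k) rfl
    (fun _ => le_rfl) 0
  exact ⟨N, s, h1⟩

theorem onb_upper (hφ : IsPos 1 φ) (hμ : IsDens μ φ) : ∃ C > 0, ∀ k : ℕ, 1 ≤ k →
    ∀ (N : ℕ) (s : Fin N → Fam n M ℂ), IsONB μ φ k s →
      ∀ x, ∑ j, nrm k φ (s j) x ≤ C * (k : ℝ) ^ n := by
  obtain ⟨C, hC, hCle⟩ := nrm_le hφ hμ
  refine ⟨C, hC, fun k hk N s hs x => ?_⟩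
  exact orth_upper hφ hμ hC (hCle k hk) (fun j => (hs.1 j).1) hs.2.1 x

theorem onb_lower (hφ : IsPos 1 φ) (hμ : IsDens μ φ) {ε : ℝ} (hε : 0 < ε) (hε1 : ε < 1) :
    ∃ k₀ : ℕ, ∀ k ≥ k₀, 1 ≤ k ∧ ∀ (N : ℕ) (s : Fin N → Fam n M ℂ), IsONB μ φ k s →
      0 < N ∧ ∀ x, (1 - ε) * (k / Real.pi) ^ n ≤ ∑ j, nrm k φ (s j) x := by
  obtain ⟨k₀, hk₀⟩ := peak (μ := μ) hφ hμ hε
  refine ⟨max k₀ 1, fun k hk => ?_⟩
  have hk1 : 1 ≤ k := le_trans (le_max_right _ _) hk
  have hkpos : (0 : ℝ) < k := by exact_mod_cast hk1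
  have hKpos : (0 : ℝ) < (k / Real.pi) ^ n := by positivity
  refine ⟨hk1, fun N s hs => ?_⟩
  have key : ∀ x, (1 - ε) * (k / Real.pi) ^ n ≤ ∑ j, nrm k φ (s j) x := by
    intro x
    obtain ⟨t, ht, htpos, htx⟩ := hk₀ k (le_trans (le_max_left _ _) hk) x
    obtain ⟨t', ht', htt'⟩ := exists_H0 ht
    have hspan := hs.2.2 ht'
    rw [Submodule.mem_span_range_iff_exists_fun] at hspan
    obtain ⟨c, hc⟩ := hspan
    have hval : ∀ y, val t y = ∑ j, c j * val (s j) y := by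
      intro y
      have h1 : val t y = val t' y :=
        (htt' _ (chart_mem_atlas (E n) y) _ (mem_chart_target (E n) y)).symm
      rw [h1, ← hc, val_sum]
      simp only [val_smul]
    have hn := norm_comb (μ := μ) hφ hμ (fun j => (hs.1 j).1.toIsSec) hs.2.1 c hval
    have hcs : nrm k φ t x ≤ (∑ j, ‖c j‖ ^ 2) * ∑ j, nrm k φ (s j) x := by
      simp only [nrm_val]
      rw [← Finset.sum_mul, ← mul_assoc]
      refine mul_le_mul_of_nonneg_right ?_ (wt_pos k φ x).le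
      rw [hval x]
      have h1 : ‖∑ j, c j * val (s j) x‖ ≤ ∑ j, ‖c j‖ * ‖val (s j) x‖ :=
        (norm_sum_le _ _).trans (le_of_eq (Finset.sum_congr rfl fun j _ => norm_mul _ _))
      exact (pow_le_pow_left₀ (norm_nonneg _) h1 2).trans (Finset.sum_mul_sq_le_sq_mul_sq _ _ _)
    rw [hn] at htx htpos
    have h5 : (1 - ε) * (k / Real.pi) ^ n * ∑ j, ‖c j‖ ^ 2 ≤
        (∑ j, nrm k φ (s j) x) * ∑ j, ‖c j‖ ^ 2 :=
      htx.trans (hcs.trans (le_of_eq (mul_comm _ _)))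
    exact le_of_mul_le_mul_right h5 htpos
  refine ⟨?_, key⟩
  obtain ⟨x⟩ : Nonempty M := ConnectedSpace.toNonempty
  rcases Nat.eq_zero_or_pos N with h | h
  · subst h
    have := key x
    simp only [Finset.univ_eq_empty, Finset.sum_empty] at this
    have h2 : 0 < (1 - ε) * (k / Real.pi) ^ n := mul_pos (by linarith) hKpos
    linarith
  · exact h

end Pool.Agent.helper63.NU
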