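import Mathlib

set_option autoImplicit false

/-! Module B6, auxiliary: abstract semi-definite forms and `L²` limits. -/

open MeasureTheory Filter Topology Set

noncomputable section

namespace Pool.Agent.helper74.NU

section Forms

variable {D : Type*} [AddCommGroup D] [Module ℂ D]

/-- a positive semi-definite Hermitian form (linear in the first variable) -/
structure Form (B : D → D → ℂ) : Prop where
  add : ∀ a b c, B (a + b) c = B a c + B b c
  smul : ∀ (z : ℂ) a b, B (z • a) b = z * B a b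
  conj : ∀ a b, (starRingEnd ℂ) (B a b) = B b a
  nonneg : ∀ a, 0 ≤ (B a a).re

variable {B : D → D → ℂ}

theorem Form.cs (hB : Form B) (a b : D) : ‖B a b‖ ^ 2 ≤ (B a a).re * (B b b).re := by
  let c : PreInnerProductSpace.Core ℂ D :=
    { inner := fun x y => B y x
      conj_inner_symm := fun x y => hB.conj x y
      re_inner_nonneg := fun x => hB.nonneg x
      add_left := fun x y z => by
        change B z (x + y) = B z x + B z y
        rw [← hB.conj, hB.add, map_add, hB.conj, hB.conj]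
      smul_left := fun x y r => by
        change B y (r • x) = (starRingEnd ℂ) r * B y x
        rw [← hB.conj, hB.smul, map_mul, hB.conj] }
  have h := InnerProductSpace.Core.inner_mul_inner_self_le (𝕜 := ℂ) (F := D) b a
  change ‖B a b‖ * ‖B b a‖ ≤ (B b b).re * (B a a).re at h
  have h2 : ‖B b a‖ = ‖B a b‖ := by rw [← hB.conj, RCLike.norm_conj]
  rw [h2] at h
  nlinarith [h]

theorem Form.add_right (hB : Form B) (a b c : D) : B c (a + b) = B c a + B c b := by
  rw [← hB.conj, hB.add, map_add, hB.conj, hB.conj]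

theorem Form.neg_left (hB : Form B) (a b : D) : B (-a) b = -B a b := by
  have := hB.smul (-1) a b
  simpa using this

theorem Form.neg_right (hB : Form B) (a b : D) : B a (-b) = -B a b := by
  rw [← hB.conj, hB.neg_left, map_neg, hB.conj]

theorem Form.sub_left (hB : Form B) (a b c : D) : B (a - b) c = B a c - B b c := by
  rw [sub_eq_add_neg, hB.add, hB.neg_left, sub_eq_add_neg]

theorem Form.sub_right (hB : Form B) (a b c : D) : B c (a - b) = B c a - B c b := by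
  rw [sub_eq_add_neg, hB.add_right, hB.neg_right, sub_eq_add_neg]

theorem Form.zero_left (hB : Form B) (b : D) : B 0 b = 0 := by
  have := hB.smul 0 0 b
  simpa using this

theorem Form.add_self_le (hB : Form B) (a b : D) :
    (B (a + b) (a + b)).re ≤ 2 * (B a a).re + 2 * (B b b).re := by
  have h1 := hB.nonneg (a - b)
  rw [hB.sub_left, hB.sub_right, hB.sub_right] at h1
  rw [hB.add, hB.add_right, hB.add_right]
  simp only [Complex.add_re, Complex.sub_re] at h1 ⊢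
  linarith

theorem Form.sum_self_le (hB : Form B) {ι : Type*} (s : Finset ι) (a : ι → D) :
    (B (∑ i ∈ s, a i) (∑ i ∈ s, a i)).re ≤ 2 ^ s.card * ∑ i ∈ s, (B (a i) (a i)).re := by
  classical
  induction s using Finset.induction_on with
  | empty => simp [hB.zero_left]
  | insert j s hj ih =>
    rw [Finset.sum_insert hj, Finset.sum_insert hj, Finset.card_insert_of_notMem hj]
    have h1 := hB.add_self_le (a j) (∑ i ∈ s, a i)
    have h2 := hB.nonneg (a j)
    have h3 : (1 : ℝ) ≤ 2 ^ s.card := one_le_pow₀ (by norm_num)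
    have h4 : 0 ≤ ∑ i ∈ s, (B (a i) (a i)).re := Finset.sum_nonneg fun i _ => hB.nonneg _
    rw [pow_succ]
    nlinarith [mul_nonneg (sub_nonneg.2 h3) h2]

/-- the abstract energy argument -/
theorem energy_tendsto_zero {I Dp : D → D → ℂ} (hI : Form I) (hD : Form Dp) {L : D → D}
    (hL : ∀ a b, I (L a) b = Dp a b) {v w : ℕ → D}
    (ha : ∀ ε > 0, ∃ N, ∀ m ≥ N, ∀ j ≥ N, (I (w m - v j) (w m - v j)).re ≤ ε)
    (hb : ∀ ε > 0, ∃ N, ∀ m ≥ N, ∀ m' ≥ N, (Dp (w m - w m') (w m - w m')).re ≤ ε)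
    (hc : ∀ u, Tendsto (fun i => I (v i) (L u)) atTop (𝓝 0)) :
    ∀ ε > 0, ∃ N, ∀ m ≥ N, (Dp (w m) (w m)).re ≤ ε := by
  intro ε hε
  obtain ⟨N, hN⟩ := hb ε hε
  refine ⟨N, fun m hm => ?_⟩
  set A := (Dp (w m) (w m)).re with hA
  have hA0 : 0 ≤ A := hD.nonneg _
  -- `Dp (w m) (w m') → 0`
  have h1 : Tendsto (fun m' => ‖Dp (w m) (w m')‖) atTop (𝓝 0) := by
    have e1 : ∀ m', Dp (w m) (w m') = I (L (w m)) (w m' - v m') + I (L (w m)) (v m') := by
      intro m'
      rw [← hI.add_right, sub_add_cancel, hL]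
    have t1 : Tendsto (fun m' => ‖I (L (w m)) (v m')‖) atTop (𝓝 0) := by
      have : ∀ m', ‖I (L (w m)) (v m')‖ = ‖I (v m') (L (w m))‖ := fun m' => by
        rw [← hI.conj, RCLike.norm_conj]
      simp only [this]
      simpa using (hc (w m)).norm
    have t2 : Tendsto (fun m' => (I (w m' - v m') (w m' - v m')).re) atTop (𝓝 0) := by
      rw [Metric.tendsto_atTop]
      intro δ hδ
      obtain ⟨K, hK⟩ := ha (δ / 2) (by positivity)
      refine ⟨K, fun m' hm' => ?_⟩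
      rw [Real.dist_eq, sub_zero, abs_of_nonneg (hI.nonneg _)]
      linarith [hK m' hm' m' hm']
    have t3 : Tendsto (fun m' => Real.sqrt ((I (L (w m)) (L (w m))).re *
        (I (w m' - v m') (w m' - v m')).re)) atTop (𝓝 0) := by
      have := (t2.const_mul ((I (L (w m)) (L (w m))).re)).sqrt
      simpa using this
    have t4 : Tendsto (fun m' => Real.sqrt ((I (L (w m)) (L (w m))).re *
        (I (w m' - v m') (w m' - v m')).re) + ‖I (L (w m)) (v m')‖) atTop (𝓝 0) := by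
      simpa using t3.add t1
    refine squeeze_zero (fun _ => norm_nonneg _) (fun m' => ?_) t4
    rw [e1]
    refine (norm_add_le _ _).trans (add_le_add ?_ le_rfl)
    exact Real.le_sqrt_of_sq_le (hI.cs _ _)
  have h2 : ∀ m' ≥ N, A ≤ Real.sqrt (A * ε) + ‖Dp (w m) (w m')‖ := by
    intro m' hm'
    have e : Dp (w m) (w m) = Dp (w m) (w m - w m') + Dp (w m) (w m') := by
      rw [← hD.add_right, sub_add_cancel]
    have e2 : A ≤ ‖Dp (w m) (w m - w m')‖ + ‖Dp (w m) (w m')‖ := by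
      rw [hA, e]
      exact (Complex.re_le_norm _).trans (norm_add_le _ _)
    refine e2.trans (add_le_add ?_ le_rfl)
    refine Real.le_sqrt_of_sq_le ((hD.cs _ _).trans ?_)
    exact mul_le_mul_of_nonneg_left (hN m hm m' hm') hA0
  have h3 : A ≤ Real.sqrt (A * ε) := by
    have t : Tendsto (fun m' => Real.sqrt (A * ε) + ‖Dp (w m) (w m')‖) atTop
        (𝓝 (Real.sqrt (A * ε))) := by simpa using h1.const_add (Real.sqrt (A * ε))
    exact ge_of_tendsto t (eventually_atTop.2 ⟨N, h2⟩)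
  have h4 : A ^ 2 ≤ A * ε := by
    have := pow_le_pow_left₀ hA0 h3 2
    rwa [Real.sq_sqrt (by positivity)] at this
  rcases hA0.eq_or_lt with h | h
  · rw [← h]; exact hε.le
  · nlinarith

end Forms

section LTwo

variable {X : Type*} [MeasurableSpace X] {ν : Measure X}

theorem integrable_sq {f : X → ℂ} (hf : MemLp f 2 ν) : Integrable (fun y => ‖f y‖ ^ 2) ν :=
  (memLp_two_iff_integrable_sq_norm hf.1).1 hf

theorem sq_eLpNorm {f : X → ℂ} (hf : MemLp f 2 ν) :
    ((eLpNorm f 2 ν).toReal) ^ 2 = ∫ y, ‖f y‖ ^ 2 ∂ν := by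
  rw [hf.eLpNorm_eq_integral_rpow_norm (by norm_num) (by norm_num)]
  have h0 : 0 ≤ ∫ y, ‖f y‖ ^ (2 : ℝ) ∂ν := integral_nonneg fun _ => by positivity
  rw [ENNReal.toReal_ofReal (by positivity)]
  simp only [ENNReal.toReal_ofNat]
  rw [← Real.rpow_natCast, ← Real.rpow_mul h0]
  norm_num

theorem eLpNorm_lt_of {f : X → ℂ} (hf : MemLp f 2 ν) {ε : ℝ} (hε : 0 < ε)
    (h : ∫ y, ‖f y‖ ^ 2 ∂ν < ε ^ 2) : eLpNorm f 2 ν < ENNReal.ofReal ε := by
  have h1 : (eLpNorm f 2 ν).toReal < ε := by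
    have := sq_eLpNorm hf
    rw [← this] at h
    exact lt_of_pow_lt_pow_left₀ 2 hε.le h
  rw [← ENNReal.ofReal_toReal hf.2.ne]
  exact (ENNReal.ofReal_lt_ofReal_iff hε).2 h1

/-- completeness of `L²`, in terms of integrals -/
theorem exists_limit {f : ℕ → X → ℂ} (hf : ∀ i, MemLp (f i) 2 ν)
    (hc : ∀ ε > 0, ∃ N, ∀ i ≥ N, ∀ j ≥ N, ∫ y, ‖f i y - f j y‖ ^ 2 ∂ν ≤ ε) :
    ∃ r : X → ℂ, MemLp r 2 ν ∧ Tendsto (fun i => ∫ y, ‖f i y - r y‖ ^ 2 ∂ν) atTop (𝓝 0) := by
  have hcs : CauchySeq (fun i => (hf i).toLp (f i)) := by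
    rw [Metric.cauchySeq_iff]
    intro ε hε
    obtain ⟨N, hN⟩ := hc (ε ^ 2 / 2) (by positivity)
    refine ⟨N, fun i hi j hj => ?_⟩
    rw [Lp.dist_edist, Lp.edist_toLp_toLp]
    have hm : MemLp (f i - f j) 2 ν := (hf i).sub (hf j)
    have h1 : eLpNorm (f i - f j) 2 ν < ENNReal.ofReal ε := by
      refine eLpNorm_lt_of hm hε ?_
      have := hN i hi j hj
      simp only [Pi.sub_apply]
      nlinarith [sq_nonneg ε, pow_pos hε 2]
    exact (ENNReal.toReal_lt_of_lt_ofReal h1)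
  obtain ⟨r, hr⟩ := cauchySeq_tendsto_of_complete hcs
  refine ⟨r, Lp.memLp r, ?_⟩
  have h1 : Tendsto (fun i => dist ((hf i).toLp (f i)) r) atTop (𝓝 0) :=
    tendsto_iff_dist_tendsto_zero.1 hr
  have h2 : ∀ i, ∫ y, ‖f i y - r y‖ ^ 2 ∂ν = dist ((hf i).toLp (f i)) r ^ 2 := by
    intro i
    have hm : MemLp (f i - ⇑r) 2 ν := (hf i).sub (Lp.memLp r)
    have e1 := sq_eLpNorm hm
    simp only [Pi.sub_apply] at e1
    rw [← e1, Lp.dist_edist]
    congr 2
    conv_rhs => rw [← Lp.toLp_coeFn r (Lp.memLp r)]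
    rw [Lp.edist_toLp_toLp]
  simp only [h2]
  simpa using h1.pow 2

theorem sq_add_le (a b : ℂ) : ‖a + b‖ ^ 2 ≤ 2 * ‖a‖ ^ 2 + 2 * ‖b‖ ^ 2 := by
  have h := norm_add_le a b
  nlinarith [norm_nonneg (a + b), norm_nonneg a, norm_nonneg b, sq_nonneg (‖a‖ - ‖b‖)]

/-- quasi-triangle inequality in `L²` -/
theorem integral_sq_add_le {f g : X → ℂ} (hf : MemLp f 2 ν) (hg : MemLp g 2 ν) :
    ∫ y, ‖f y + g y‖ ^ 2 ∂ν ≤ 2 * ∫ y, ‖f y‖ ^ 2 ∂ν + 2 * ∫ y, ‖g y‖ ^ 2 ∂ν := by
  rw [← integral_const_mul, ← integral_const_mul, ← integral_add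
    ((integrable_sq hf).const_mul 2) ((integrable_sq hg).const_mul 2)]
  exact integral_mono (integrable_sq (hf.add hg))
    (((integrable_sq hf).const_mul 2).add ((integrable_sq hg).const_mul 2))
    (fun y => sq_add_le _ _)

/-- Cauchy-Schwarz -/
theorem norm_integral_mul_le {f g : X → ℂ} (hf : MemLp f 2 ν) (hg : MemLp g 2 ν) :
    ‖∫ y, f y * g y ∂ν‖ ≤ Real.sqrt (∫ y, ‖f y‖ ^ 2 ∂ν) * Real.sqrt (∫ y, ‖g y‖ ^ 2 ∂ν) := by
  refine (norm_integral_le_integral_norm _).trans ?_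
  simp only [norm_mul]
  have h := integral_mul_norm_le_Lp_mul_Lq (μ := ν) (f := f) (g := g)
    (p := 2) (q := 2) (by constructor <;> norm_num)
    (by simpa using hf) (by simpa using hg)
  have e : ∀ F : X → ℂ, (∫ y, ‖F y‖ ^ (2 : ℝ) ∂ν) ^ ((1 : ℝ) / 2) =
      Real.sqrt (∫ y, ‖F y‖ ^ 2 ∂ν) := by
    intro F
    rw [Real.sqrt_eq_rpow]
    simp only [Real.rpow_two]
  rw [e, e] at h
  exact h

theorem tendsto_integral_mul {f : ℕ → X → ℂ} (hf : ∀ i, MemLp (f i) 2 ν) {r g : X → ℂ}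
    (hr : MemLp r 2 ν) (hg : MemLp g 2 ν)
    (h : Tendsto (fun i => ∫ y, ‖f i y - r y‖ ^ 2 ∂ν) atTop (𝓝 0)) :
    Tendsto (fun i => ∫ y, f i y * g y ∂ν) atTop (𝓝 (∫ y, r y * g y ∂ν)) := by
  rw [tendsto_iff_norm_sub_tendsto_zero]
  have h1 : Tendsto (fun i => Real.sqrt (∫ y, ‖f i y - r y‖ ^ 2 ∂ν) *
      Real.sqrt (∫ y, ‖g y‖ ^ 2 ∂ν)) atTop (𝓝 0) := by
    have := (h.sqrt).mul_const (Real.sqrt (∫ y, ‖g y‖ ^ 2 ∂ν))
    simpa using this
  refine squeeze_zero (fun _ => norm_nonneg _) (fun i => ?_) h1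
  have e : ∫ y, f i y * g y ∂ν - ∫ y, r y * g y ∂ν = ∫ y, (f i y - r y) * g y ∂ν := by
    have i1 : Integrable (fun y => f i y * g y) ν := (hf i).integrable_mul hg
    have i2 : Integrable (fun y => r y * g y) ν := hr.integrable_mul hg
    rw [← integral_sub i1 i2]
    congr 1
    ext y
    ring
  rw [e]
  exact norm_integral_mul_le ((hf i).sub hr) hg

theorem exists_subseq_ae {f : ℕ → X → ℂ} (hf : ∀ i, MemLp (f i) 2 ν) {r : X → ℂ}
    (hr : MemLp r 2 ν) (h : Tendsto (fun i => ∫ y, ‖f i y - r y‖ ^ 2 ∂ν) atTop (𝓝 0)) :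
    ∃ ns : ℕ → ℕ, StrictMono ns ∧ ∀ᵐ y ∂ν, Tendsto (fun i => f (ns i) y) atTop (𝓝 (r y)) := by
  have h1 : Tendsto (fun i => eLpNorm (f i - r) 2 ν) atTop (𝓝 0) := by
    have e : ∀ i, eLpNorm (f i - r) 2 ν = ENNReal.ofReal (Real.sqrt (∫ y, ‖f i y - r y‖ ^ 2 ∂ν)) := by
      intro i
      have hm : MemLp (f i - r) 2 ν := (hf i).sub hr
      have e1 := sq_eLpNorm hm
      simp only [Pi.sub_apply] at e1
      rw [← e1, Real.sqrt_sq ENNReal.toReal_nonneg, ENNReal.ofReal_toReal hm.2.ne]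
    simp only [e]
    have := (ENNReal.continuous_ofReal.tendsto 0).comp (by simpa using h.sqrt)
    simpa [Function.comp_def] using this
  exact (tendstoInMeasure_of_tendsto_eLpNorm (by norm_num) (fun i => (hf i).1) hr.1
    h1).exists_seq_tendsto_ae

end LTwo

end Pool.Agent.helper74.NU
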