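import Pool.Agent.helper41.NU.A1
import Pool.Agent.helper41.NU.A2
import Pool.Agent.helper41.NU.A3
import Pool.Agent.helper26.NU.A4
import Pool.Agent.helper4.NU.A6
import Pool.Agent.helper70.NU.A7
import Pool.Agent.helper69.NU.B1
import Pool.Agent.helper69.NU.B2
import Pool.Agent.helper51.NU.B3
import Pool.Agent.helper80.NU.B4
import Pool.Agent.helper95.NU.B4b
import Pool.Agent.helper2.NU.B5
import Pool.Agent.helper46.NU.B5b
import Pool.Agent.helper74.NU.B6a

set_option autoImplicit false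

/-! Module B6, part b: sections in `L²` of the charts. -/

open MeasureTheory Filter Topology Set
open scoped ContDiff Manifold Matrix ENNReal ComplexOrder

noncomputable section

namespace Pool.Agent.helper74.NU

open Pool.Agent.helper63.NU

section Loc

variable {n : ℕ}

/-- continuous functions on `T` vanishing outside of a compact subset are square integrable -/
theorem memLp_of_supp {T K : Set (E n)} (hT : IsOpen T) (hK : IsCompact K) (hKT : K ⊆ T)
    {G : E n → ℂ} (hG : ContinuousOn G T) (h0 : ∀ y ∈ T, y ∉ K → G y = 0) :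
    MemLp G 2 (volume.restrict T) := by
  obtain ⟨C, hC⟩ := hK.exists_bound_of_continuousOn (hG.mono hKT)
  have hm : AEStronglyMeasurable G (volume.restrict T) :=
    hG.aestronglyMeasurable hT.measurableSet
  have h1 : MemLp (K.indicator fun _ => (C : ℂ)) 2 (volume.restrict T) := by
    refine memLp_indicator_const 2 hK.measurableSet _ (Or.inr ?_)
    exact ((Measure.restrict_apply_le _ _).trans_lt hK.measure_lt_top).ne
  refine MemLp.of_le_mul (c := 1) h1 hm ?_
  refine (ae_restrict_iff' hT.measurableSet).2 (Eventually.of_forall fun y hy => ?_)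
  by_cases hyK : y ∈ K
  · rw [indicator_of_mem hyK, one_mul, Complex.norm_real]
    exact (hC y hyK).trans (le_abs_self C)
  · rw [h0 y hy hyK, norm_zero]
    positivity

/-- multiplication by a continuous function maps `L²(T)` to `L²(K)` -/
theorem exists_mul_bound {T K : Set (E n)} (hT : IsOpen T) (hK : IsCompact K) (hKT : K ⊆ T)
    {b : E n → ℂ} (hb : ContinuousOn b T) :
    ∃ C : ℝ, 0 < C ∧ ∀ F : E n → ℂ, MemLp F 2 (volume.restrict T) →
      MemLp (fun y => F y * b y) 2 (volume.restrict K) ∧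
      ∫ y in K, ‖F y * b y‖ ^ 2 ≤ C * ∫ y in T, ‖F y‖ ^ 2 := by
  obtain ⟨C, hC⟩ := hK.exists_bound_of_continuousOn (hb.mono hKT)
  refine ⟨|C| ^ 2 + 1, by positivity, fun F hF => ?_⟩
  have hFK : MemLp F 2 (volume.restrict K) := hF.mono_measure (Measure.restrict_mono hKT le_rfl)
  have hm : AEStronglyMeasurable (fun y => F y * b y) (volume.restrict K) :=
    hFK.1.mul ((hb.mono hKT).aestronglyMeasurable hK.measurableSet)
  have hle : ∀ y ∈ K, ‖F y * b y‖ ≤ |C| * ‖F y‖ := by
    intro y hy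
    rw [norm_mul, mul_comm]
    exact mul_le_mul_of_nonneg_right ((hC y hy).trans (le_abs_self C)) (norm_nonneg _)
  have hm2 : MemLp (fun y => F y * b y) 2 (volume.restrict K) :=
    MemLp.of_le_mul hFK hm ((ae_restrict_iff' hK.measurableSet).2 (Eventually.of_forall hle))
  refine ⟨hm2, ?_⟩
  have h1 : ∫ y in K, ‖F y * b y‖ ^ 2 ≤ ∫ y in K, |C| ^ 2 * ‖F y‖ ^ 2 := by
    refine setIntegral_mono_on (integrable_sq hm2) ((integrable_sq hFK).const_mul _)
      hK.measurableSet fun y hy => ?_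
    rw [← mul_pow]
    exact pow_le_pow_left₀ (norm_nonneg _) (hle y hy) 2
  have h2 : ∫ y in K, ‖F y‖ ^ 2 ≤ ∫ y in T, ‖F y‖ ^ 2 :=
    setIntegral_mono_set (integrable_sq hF) (Eventually.of_forall fun y => by positivity)
      (LE.le.eventuallyLE hKT)
  rw [integral_const_mul] at h1
  have h3 : 0 ≤ ∫ y in T, ‖F y‖ ^ 2 := integral_nonneg fun y => by positivity
  nlinarith [sq_nonneg |C|, mul_le_mul_of_nonneg_left h2 (sq_nonneg |C|)]

theorem bx_congr {ψ : E n → ℝ} {f g : E n → ℂ} {y : E n} (h : f =ᶠ[𝓝 y] g) :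
    bx ψ f y = bx ψ g y := by
  unfold bx
  congr 1
  refine Finset.sum_congr rfl fun j _ => dz_congr ?_ j
  filter_upwards [h.eventuallyEq_nhds] with z hz
  have : dbv f z = dbv g z := funext fun k => db_congr hz k
  simp only [this]

theorem bx_zero (ψ : E n → ℝ) (y : E n) : bx ψ (fun _ => 0) y = 0 := by
  have h1 : ∀ z : E n, dbv (fun _ => (0 : ℂ)) z = fun _ => 0 := fun z => funext fun k => db_const 0 k z
  unfold bx
  simp only [h1, rs, mul_zero, Finset.sum_const_zero, dz_const]

end Loc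

section

variable {n : ℕ} {M : Type*} [TopologicalSpace M]

/-- the function `s e^{-ψ/2}` in the chart `e` -/
def wf (ψ : Fam n M ℝ) (s : Fam n M ℂ) (e : Ch n M) (y : E n) : ℂ :=
  s e y * (Real.exp (-ψ e y / 2) : ℂ)

theorem norm_wf_sq (ψ : Fam n M ℝ) (s : Fam n M ℂ) (e : Ch n M) (y : E n) :
    ‖wf ψ s e y‖ ^ 2 = ‖s e y‖ ^ 2 * Real.exp (-ψ e y) := by
  unfold wf
  rw [norm_mul, mul_pow, Complex.norm_real, Real.norm_eq_abs, abs_of_pos (Real.exp_pos _),
    ← Real.exp_nat_mul]
  congr 2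
  push_cast
  ring

theorem wf_sub (ψ : Fam n M ℝ) (s t : Fam n M ℂ) (e : Ch n M) (y : E n) :
    wf ψ (s - t) e y = wf ψ s e y - wf ψ t e y := by
  unfold wf
  simp only [Pi.sub_apply]
  ring

variable [ChartedSpace (E n) M]

theorem fn_pr_self (φ ψ : Fam n M ℝ) (s : Fam n M ℂ) (x : M) :
    fn φ (pr ψ s s) x = ((‖wf ψ s (chartAt (E n) x) (chartAt (E n) x x)‖ ^ 2 *
      Real.exp (φ (chartAt (E n) x) (chartAt (E n) x x)) : ℝ) : ℂ) := by
  rw [norm_wf_sq]
  unfold fn pr
  rw [Complex.mul_conj, Complex.normSq_eq_norm_sq]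
  push_cast
  ring

variable [IsManifold 𝓘(ℂ, E n) ω M]
variable [CompactSpace M] [T2Space M]
variable [MeasurableSpace M] [BorelSpace M] {μ : Measure M} {φ : Fam n M ℝ}

theorem continuous_fn_pr (hφ : IsWeight 1 φ) {k : ℕ} {ψ : Fam n M ℝ}
    (hψ : IsWeight (k + 1) ψ) {s : Fam n M ℂ} (hs : IsSec k s) :
    Continuous (fn φ (pr ψ s s)) := by
  refine continuous_fn hφ (pr_isDen hψ hs hs) fun e he => ?_
  have h1 := (hs.smooth e he).continuousOn
  have h2 := (hψ.smooth e he).continuousOn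
  unfold pr
  exact (h1.mul (Complex.continuous_conj.comp_continuousOn h1)).mul
    (Complex.continuous_ofReal.comp_continuousOn (Real.continuous_exp.comp_continuousOn h2.neg))

theorem integrable_fn_pr (hφ : IsWeight 1 φ) (hμ : IsDens μ φ) {k : ℕ} {ψ : Fam n M ℝ}
    (hψ : IsWeight (k + 1) ψ) {s : Fam n M ℂ} (hs : IsSec k s) :
    Integrable (fn φ (pr ψ s s)) μ := by
  have := isFiniteMeasure_of_isDens hφ hμ
  exact (continuous_fn_pr hφ hψ hs).integrable_of_hasCompactSupport (HasCompactSupport.of_compactSpace _)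

theorem ip_self_eq (μ : Measure M) (φ ψ : Fam n M ℝ) (s : Fam n M ℂ) :
    (ip μ φ ψ s s).re = ∫ x, ‖fn φ (pr ψ s s) x‖ ∂μ := by
  unfold ip
  simp only [fn_pr_self]
  rw [integral_complex_ofReal, Complex.ofReal_re]
  refine integral_congr_ae (Eventually.of_forall fun x => ?_)
  simp only
  rw [Complex.norm_real, Real.norm_of_nonneg (by positivity)]

theorem sec_memLp (hφ : IsWeight 1 φ) (hμ : IsDens μ φ) {k : ℕ} {ψ : Fam n M ℝ}
    (hψ : IsWeight (k + 1) ψ) {s : Fam n M ℂ} (hs : IsSec k s) {e : Ch n M}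
    (he : e ∈ atlas (E n) M) :
    MemLp (wf ψ s e) 2 (volume.restrict e.target) ∧
    ∫ y in e.target, ‖wf ψ s e y‖ ^ 2 = ∫ x in e.source, ‖fn φ (pr ψ s s) x‖ ∂μ := by
  have hc := continuous_fn_pr hφ hψ hs
  have hi := integrable_fn_pr hφ hμ hψ hs
  have hl := hμ e he (fun x => ‖fn φ (pr ψ s s) x‖ₑ) hc.measurable.enorm
  have hr : ∫⁻ y in e.target, ‖fn φ (pr ψ s s) (e.symm y)‖ₑ * ENNReal.ofReal (Real.exp (-φ e y))
      = ∫⁻ y in e.target, ENNReal.ofReal (‖wf ψ s e y‖ ^ 2) := by
    refine setLIntegral_congr_fun e.open_target.measurableSet fun y hy => ?_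
    have h1 := fn_eq hφ (pr_isDen hψ hs hs) he (e.map_target hy)
    rw [e.right_inv hy] at h1
    rw [h1, ← ofReal_norm, ← ENNReal.ofReal_mul (norm_nonneg _), norm_wf_sq]
    congr 1
    unfold pr
    rw [norm_mul, norm_mul, norm_mul, RCLike.norm_conj, Complex.norm_real, Complex.norm_real,
      Real.norm_of_nonneg (Real.exp_pos _).le, Real.norm_of_nonneg (Real.exp_pos _).le]
    rw [show ‖s e y‖ * ‖s e y‖ * Real.exp (-ψ e y) * Real.exp (φ e y) * Real.exp (-φ e y) =
      ‖s e y‖ * ‖s e y‖ * Real.exp (-ψ e y) * (Real.exp (φ e y) * Real.exp (-φ e y)) by ring,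
      ← Real.exp_add, add_neg_cancel, Real.exp_zero]
    ring
  rw [hr] at hl
  have hm : AEStronglyMeasurable (wf ψ s e) (volume.restrict e.target) := by
    refine ContinuousOn.aestronglyMeasurable ?_ e.open_target.measurableSet
    unfold wf
    exact (hs.smooth e he).continuousOn.mul (Complex.continuous_ofReal.comp_continuousOn
      (Real.continuous_exp.comp_continuousOn ((hψ.smooth e he).continuousOn.neg.div_const 2)))
  have hm2 : AEStronglyMeasurable (fun y => ‖wf ψ s e y‖ ^ 2) (volume.restrict e.target) :=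
    hm.norm.pow 2
  have hfin : ∫⁻ x in e.source, ‖fn φ (pr ψ s s) x‖ₑ ∂μ < ⊤ :=
    (setLIntegral_le_lintegral _ _).trans_lt hi.2
  refine ⟨(memLp_two_iff_integrable_sq_norm hm).2 ⟨hm2, ?_⟩, ?_⟩
  · rw [hasFiniteIntegral_iff_ofReal (Eventually.of_forall fun y => by positivity), ← hl]
    exact hfin
  · rw [integral_eq_lintegral_of_nonneg_ae (Eventually.of_forall fun y => by positivity) hm2,
      integral_eq_lintegral_of_nonneg_ae (Eventually.of_forall fun y => norm_nonneg _)
        hc.norm.aestronglyMeasurable, ← hl]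
    simp only [ofReal_norm]

theorem sec_le_ip (hφ : IsWeight 1 φ) (hμ : IsDens μ φ) {k : ℕ} {ψ : Fam n M ℝ}
    (hψ : IsWeight (k + 1) ψ) {s : Fam n M ℂ} (hs : IsSec k s) {e : Ch n M}
    (he : e ∈ atlas (E n) M) :
    ∫ y in e.target, ‖wf ψ s e y‖ ^ 2 ≤ (ip μ φ ψ s s).re := by
  rw [(sec_memLp hφ hμ hψ hs he).2, ip_self_eq]
  exact setIntegral_le_integral (integrable_fn_pr hφ hμ hψ hs).norm
    (Eventually.of_forall fun y => norm_nonneg _)

theorem ip_le_sum (hφ : IsWeight 1 φ) (hμ : IsDens μ φ) {k : ℕ} {ψ : Fam n M ℝ}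
    (hψ : IsWeight (k + 1) ψ) {N : ℕ} {c : Fin N → Ch n M} (hc : ∀ i, c i ∈ atlas (E n) M)
    (hcov : ∀ x, ∃ i, x ∈ (c i).source) {s : Fam n M ℂ} (hs : IsSec k s) :
    (ip μ φ ψ s s).re ≤ ∑ i, ∫ y in (c i).target, ‖wf ψ s (c i) y‖ ^ 2 := by
  have hi := (integrable_fn_pr hφ hμ hψ hs).norm
  have h1 : ∀ i, ∫ y in (c i).target, ‖wf ψ s (c i) y‖ ^ 2 =
      ∫ x, (c i).source.indicator (fun x => ‖fn φ (pr ψ s s) x‖) x ∂μ := fun i => by
    rw [(sec_memLp hφ hμ hψ hs (hc i)).2, integral_indicator (c i).open_source.measurableSet]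
  simp only [h1]
  rw [ip_self_eq, ← integral_finsetSum _ fun i _ => hi.indicator (c i).open_source.measurableSet]
  refine integral_mono hi (integrable_finsetSum _ fun i _ =>
    hi.indicator (c i).open_source.measurableSet) fun x => ?_
  obtain ⟨i, hx⟩ := hcov x
  simp only
  refine le_trans ?_ (Finset.single_le_sum (f := fun i => (c i).source.indicator
    (fun x => ‖fn φ (pr ψ s s) x‖) x) (fun j _ => indicator_nonneg (fun _ _ => norm_nonneg _) _)
    (Finset.mem_univ i))
  rw [indicator_of_mem hx]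

/-- `ip` depends only on the values in the charts -/
theorem ip_congr {s s' t t' : Fam n M ℂ} {ψ : Fam n M ℝ}
    (hs : ∀ e ∈ atlas (E n) M, ∀ y ∈ e.target, s e y = s' e y)
    (ht : ∀ e ∈ atlas (E n) M, ∀ y ∈ e.target, t e y = t' e y) :
    ip μ φ ψ s t = ip μ φ ψ s' t' := by
  unfold ip
  congr 1
  ext x
  unfold fn pr
  have hx := (chartAt (E n) x).map_source (mem_chart_source (E n) x)
  rw [hs _ (chart_mem_atlas (E n) x) _ hx, ht _ (chart_mem_atlas (E n) x) _ hx]

/-- the integral of a section against the Laplacian of a test function -/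
theorem ip_box_ext (hφ : IsWeight 1 φ) (hμ : IsDens μ φ) {k : ℕ} {ψ : Fam n M ℝ}
    (hψ : IsPos (k + 1) ψ) {s : Fam n M ℂ} (hs : IsSec k s) {e : Ch n M}
    (he : e ∈ atlas (E n) M) {u : E n → ℂ} (hu : ContDiff ℝ ∞ u) (hc : HasCompactSupport u)
    (hsu : tsupport u ⊆ e.target) :
    ip μ φ ψ s (box ψ (ext k e u)) =
      ∫ y in e.target, s e y * (starRingEnd ℂ) (bx (ψ e) u y) * (Real.exp (-ψ e y) : ℂ) := by
  have hU : IsSec k (ext k e u : Fam n M ℂ) := ext_isSec k he hu hc hsu
  have hW := hψ.toIsWeight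
  have hB := box_isSec hψ hU
  have hzero : ∀ x ∉ e.source, fn φ (pr ψ s (box ψ (ext k e u))) x = 0 := by
    intro x hx
    unfold fn pr box
    set c := chartAt (E n) x with hcdef
    have hxc : x ∈ c.source := mem_chart_source (E n) x
    have hclosed : IsClosed (e.symm '' tsupport u) := by
      refine IsCompact.isClosed (hc.image_of_continuousOn ?_)
      exact e.symm.continuousOn.mono (by simpa using hsu)
    have hxn : x ∉ e.symm '' tsupport u := by
      rintro ⟨y, hy, rfl⟩
      exact hx (e.map_target (hsu hy))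
    have hopen : IsOpen (c.target ∩ c.symm ⁻¹' (e.symm '' tsupport u)ᶜ) :=
      c.symm.isOpen_inter_preimage hclosed.isOpen_compl
    have hmem : c x ∈ c.target ∩ c.symm ⁻¹' (e.symm '' tsupport u)ᶜ := by
      refine ⟨c.map_source hxc, ?_⟩
      rw [mem_preimage, c.left_inv hxc]
      exact hxn
    have hev : (ext k e u : Fam n M ℂ) c =ᶠ[𝓝 (c x)] fun _ => 0 := by
      filter_upwards [hopen.mem_nhds hmem] with y hy
      unfold Pool.Agent.helper63.NU.ext
      split_ifs with h
      · have : u (e (c.symm y)) = 0 := by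
          by_contra hne
          refine hy.2 ⟨e (c.symm y), subset_tsupport u hne, ?_⟩
          exact e.left_inv h.2
        rw [this, mul_zero]
      · rfl
    rw [bx_congr hev, bx_zero, map_zero]
    ring
  unfold ip
  rw [← setIntegral_eq_integral_of_forall_compl_eq_zero (s := e.source) hzero,
    setIntegral_fn hφ hμ (pr_isDen hW hs hB) he]
  refine setIntegral_congr_fun e.open_target.measurableSet fun y hy => ?_
  have hev : (ext k e u : Fam n M ℂ) e =ᶠ[𝓝 y] u := by
    filter_upwards [e.open_target.mem_nhds hy] with z hz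
    exact ext_apply k he u hz
  simp only [pr, box]
  rw [bx_congr hev]

end

end Pool.Agent.helper74.NU
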