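import Pool.Agent.helper74.NU.B6b

set_option autoImplicit false

/-! Module B6, part c: the limit in the charts, the weak equation, the approximating sections. -/

open MeasureTheory Filter Topology Set
open scoped ContDiff Manifold Matrix ENNReal ComplexOrder

noncomputable section

namespace Pool.Agent.helper74.NU

open Pool.Agent.helper63.NU

variable {n : ℕ} {M : Type*} [TopologicalSpace M] [ChartedSpace (E n) M]
  [IsManifold 𝓘(ℂ, E n) ω M]

/-- the module of sections -/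
def secM (n : ℕ) (M : Type*) [TopologicalSpace M] [ChartedSpace (E n) M]
    [IsManifold 𝓘(ℂ, E n) ω M] (k : ℕ) : Submodule ℂ (Fam n M ℂ) where
  carrier := {s | IsSec k s}
  add_mem' := fun ha hb => IsSec.add ha hb
  zero_mem' := IsSec.zero k
  smul_mem' := fun c _ hs => IsSec.smul hs c

variable [CompactSpace M] [T2Space M]
variable [MeasurableSpace M] [BorelSpace M] {μ : Measure M} {φ : Fam n M ℝ}

theorem form_ip (hφ : IsWeight 1 φ) (hμ : IsDens μ φ) {k : ℕ} {ψ : Fam n M ℝ}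
    (hψ : IsWeight (k + 1) ψ) :
    Form (fun a b : secM n M k => ip μ φ ψ a.1 b.1) where
  add := fun a b c => ip_add_left hφ hμ hψ a.2 b.2 c.2
  smul := fun z a b => ip_smul_left μ φ ψ z a.1 b.1
  conj := fun a b => ip_conj μ φ ψ a.1 b.1
  nonneg := fun a => ip_self_nonneg μ φ ψ a.1

theorem dp_conj {k : ℕ} {ψ : Fam n M ℝ} (hψ : IsPos (k + 1) ψ) (s t : Fam n M ℂ) :
    (starRingEnd ℂ) (dp μ φ ψ s t) = dp μ φ ψ t s := by
  unfold dp
  rw [← integral_conj]
  congr 1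
  ext x
  have hx := (chartAt (E n) x).map_source (mem_chart_source (E n) x)
  have hp := hψ.pos _ (chart_mem_atlas (E n) x) _ hx
  unfold fn en
  rw [map_mul, map_mul, cn_conj hp, Complex.conj_ofReal, Complex.conj_ofReal]

theorem form_dp (hφ : IsWeight 1 φ) (hμ : IsDens μ φ) {k : ℕ} {ψ : Fam n M ℝ}
    (hψ : IsPos (k + 1) ψ) :
    Form (fun a b : secM n M k => dp μ φ ψ a.1 b.1) where
  add := fun a b c => dp_add_left hφ hμ hψ a.2 b.2 c.2
  smul := fun z a b => dp_smul_left μ φ ψ z a.1 b.1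
  conj := fun a b => dp_conj hψ a.1 b.1
  nonneg := fun a => dp_self_nonneg hφ hμ hψ a.2

/-- `F` is the limit of `v i e^{-ψ/2}` in the chart `e` -/
def LimIn (ψ : Fam n M ℝ) (v : ℕ → Fam n M ℂ) (e : Ch n M) (F : E n → ℂ) : Prop :=
  MemLp F 2 (volume.restrict e.target) ∧
    Tendsto (fun i => ∫ y in e.target, ‖wf ψ (v i) e y - F y‖ ^ 2) atTop (𝓝 0)

theorem exists_limIn (hφ : IsWeight 1 φ) (hμ : IsDens μ φ) {k : ℕ} {ψ : Fam n M ℝ}
    (hψ : IsPos (k + 1) ψ) {v : ℕ → Fam n M ℂ} (hv : ∀ i, IsSec k (v i))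
    (hcau : ∀ ε > 0, ∃ N, ∀ i ≥ N, ∀ i' ≥ N, (ip μ φ ψ (v i - v i') (v i - v i')).re ≤ ε)
    {e : Ch n M} (he : e ∈ atlas (E n) M) : ∃ F, LimIn ψ v e F := by
  have hW := hψ.toIsWeight
  refine exists_limit (fun i => (sec_memLp hφ hμ hW (hv i) he).1) fun ε hε => ?_
  obtain ⟨N, hN⟩ := hcau ε hε
  refine ⟨N, fun i hi j hj => ?_⟩
  simp only [← wf_sub]
  exact (sec_le_ip hφ hμ hW ((hv i).sub (hv j)) he).trans (hN i hi j hj)

theorem wf_mul_exp (ψ : Fam n M ℝ) (s : Fam n M ℂ) (e : Ch n M) (y : E n) :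
    wf ψ s e y * (Real.exp (ψ e y / 2) : ℂ) = s e y := by
  unfold wf
  rw [mul_assoc, ← Complex.ofReal_mul, ← Real.exp_add, neg_div, neg_add_cancel, Real.exp_zero,
    Complex.ofReal_one, mul_one]

theorem contOn_exp {k : ℕ} {ψ : Fam n M ℝ} (hψ : IsWeight k ψ) {e : Ch n M}
    (he : e ∈ atlas (E n) M) : ContinuousOn (fun y => (Real.exp (ψ e y / 2) : ℂ)) e.target :=
  Complex.continuous_ofReal.comp_continuousOn (Real.continuous_exp.comp_continuousOn
    ((hψ.smooth e he).continuousOn.div_const 2))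

theorem contOn_exp_neg {k : ℕ} {ψ : Fam n M ℝ} (hψ : IsWeight k ψ) {e : Ch n M}
    (he : e ∈ atlas (E n) M) : ContinuousOn (fun y => (Real.exp (-ψ e y / 2) : ℂ)) e.target :=
  Complex.continuous_ofReal.comp_continuousOn (Real.continuous_exp.comp_continuousOn
    ((hψ.smooth e he).continuousOn.neg.div_const 2))

/-- the limit is locally square integrable -/
theorem LimIn.loc {k : ℕ} {ψ : Fam n M ℝ} (hψ : IsWeight k ψ) {v : ℕ → Fam n M ℂ} {e : Ch n M}
    (he : e ∈ atlas (E n) M) {F : E n → ℂ} (hF : LimIn ψ v e F) (K : Set (E n))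
    (hK : IsCompact K) (hKe : K ⊆ e.target) :
    MemLp (fun y => F y * (Real.exp (ψ e y / 2) : ℂ)) 2 (volume.restrict K) := by
  obtain ⟨C, _, hC⟩ := exists_mul_bound e.open_target hK hKe (contOn_exp hψ he)
  exact (hC F hF.1).1

/-- the weak equation -/
theorem LimIn.weak (hφ : IsWeight 1 φ) (hμ : IsDens μ φ) {k : ℕ} {ψ : Fam n M ℝ}
    (hψ : IsPos (k + 1) ψ) {v : ℕ → Fam n M ℂ} (hv : ∀ i, IsSec k (v i))
    (horth : ∀ u : Fam n M ℂ, IsSec k u →
      Tendsto (fun i => ip μ φ ψ (v i) (box ψ u)) atTop (𝓝 0))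
    {e : Ch n M} (he : e ∈ atlas (E n) M) {F : E n → ℂ} (hF : LimIn ψ v e F)
    (u : E n → ℂ) (hu : ContDiff ℝ ∞ u) (hc : HasCompactSupport u) (hsu : tsupport u ⊆ e.target) :
    ∫ y in e.target, (F y * (Real.exp (ψ e y / 2) : ℂ)) * (starRingEnd ℂ) (bx (ψ e) u y) *
      (Real.exp (-ψ e y) : ℂ) = 0 := by
  have hW := hψ.toIsWeight
  set G : E n → ℂ := fun y => (starRingEnd ℂ) (bx (ψ e) u y) * (Real.exp (-ψ e y / 2) : ℂ) with hG
  have hGc : ContinuousOn G e.target := by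
    have h1 : ContinuousOn (bx (ψ e) u) e.target :=
      (contDiffOn_bx e.open_target (hψ.smooth e he) (hψ.pos e he) hu.contDiffOn).continuousOn
    exact (Complex.continuous_conj.comp_continuousOn h1).mul (contOn_exp_neg hW he)
  have hG0 : ∀ y ∈ e.target, y ∉ tsupport u → G y = 0 := by
    intro y _ hy
    have : u =ᶠ[𝓝 y] fun _ => 0 := notMem_tsupport_iff_eventuallyEq.1 hy
    rw [hG]
    simp only
    rw [bx_congr this, bx_zero, map_zero, zero_mul]
  have hGm : MemLp G 2 (volume.restrict e.target) := memLp_of_supp e.open_target hc hsu hGc hG0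
  have h1 := tendsto_integral_mul (fun i => (sec_memLp hφ hμ hW (hv i) he).1) hF.1 hGm hF.2
  have h2 : ∀ i, ∫ y in e.target, wf ψ (v i) e y * G y =
      ip μ φ ψ (v i) (box ψ (ext k e u)) := by
    intro i
    rw [ip_box_ext hφ hμ hψ (hv i) he hu hc hsu]
    refine integral_congr_ae (Eventually.of_forall fun y => ?_)
    simp only [wf, hG]
    have : (Real.exp (-ψ e y) : ℂ) = (Real.exp (-ψ e y / 2) : ℂ) * (Real.exp (-ψ e y / 2) : ℂ) := by
      rw [← Complex.ofReal_mul, ← Real.exp_add, add_halves]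
    rw [this]
    ring
  simp only [h2] at h1
  have h3 := tendsto_nhds_unique h1 (horth _ (ext_isSec k he hu hc hsu))
  rw [← h3]
  refine integral_congr_ae (Eventually.of_forall fun y => ?_)
  simp only [hG]
  have : (Real.exp (ψ e y / 2) : ℂ) * (Real.exp (-ψ e y) : ℂ) = (Real.exp (-ψ e y / 2) : ℂ) := by
    rw [← Complex.ofReal_mul, ← Real.exp_add]
    congr 2
    ring
  rw [← this]
  ring

/-- a subsequence converges almost everywhere -/
theorem LimIn.subseq (hφ : IsWeight 1 φ) (hμ : IsDens μ φ) {k : ℕ} {ψ : Fam n M ℝ}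
    (hψ : IsPos (k + 1) ψ) {v : ℕ → Fam n M ℂ} (hv : ∀ i, IsSec k (v i))
    {e : Ch n M} (he : e ∈ atlas (E n) M) {F : E n → ℂ} (hF : LimIn ψ v e F)
    {ms : ℕ → ℕ} (hms : StrictMono ms) :
    ∃ ns : ℕ → ℕ, StrictMono ns ∧ ∀ᵐ y ∂(volume.restrict e.target),
      Tendsto (fun i => v (ms (ns i)) e y) atTop (𝓝 (F y * (Real.exp (ψ e y / 2) : ℂ))) := by
  obtain ⟨ns, hns, h⟩ := exists_subseq_ae
    (fun i => (sec_memLp hφ hμ hψ.toIsWeight (hv (ms i)) he).1) hF.1
    (hF.2.comp hms.tendsto_atTop)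
  refine ⟨ns, hns, h.mono fun y hy => ?_⟩
  have := hy.mul_const (Real.exp (ψ e y / 2) : ℂ)
  simpa only [wf_mul_exp] using this

end Pool.Agent.helper74.NU
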