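import Pool.Agent.helper74.NU.B6c

set_option autoImplicit false

/-! Module B6, part d: approximating smooth sections. -/

open MeasureTheory Filter Topology Set
open scoped ContDiff Manifold Matrix ENNReal ComplexOrder

noncomputable section

namespace Pool.Agent.helper74.NU

open Pool.Agent.helper63.NU

variable {n : ℕ} {M : Type*} [TopologicalSpace M] [ChartedSpace (E n) M]
  [IsManifold 𝓘(ℂ, E n) ω M]

/-- the cut-off function in a chart -/
def kap (e : Ch n M) (χ : M → ℝ) (y : E n) : ℝ :=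
  (Set.indicator e.target (fun y => ((χ (e.symm y) : ℝ) : ℂ)) y).re

theorem kap_of_mem {e : Ch n M} (χ : M → ℝ) {y : E n} (hy : y ∈ e.target) :
    kap e χ y = χ (e.symm y) := by
  unfold kap
  rw [indicator_of_mem hy, Complex.ofReal_re]

theorem kap_coe (e : Ch n M) (χ : M → ℝ) (y : E n) :
    ((kap e χ y : ℝ) : ℂ) = Set.indicator e.target (fun y => ((χ (e.symm y) : ℝ) : ℂ)) y := by
  unfold kap
  by_cases hy : y ∈ e.target
  · rw [indicator_of_mem hy, Complex.ofReal_re]
  · rw [indicator_of_notMem hy, Complex.zero_re, Complex.ofReal_zero]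

theorem kap_mul (e : Ch n M) (χ : M → ℝ) (s : E n → ℂ) (y : E n) :
    Set.indicator e.target (fun y => ((χ (e.symm y) : ℝ) : ℂ) * s y) y =
      ((kap e χ y : ℝ) : ℂ) * s y := by
  rw [kap_coe]
  by_cases hy : y ∈ e.target
  · rw [indicator_of_mem hy, indicator_of_mem hy]
  · rw [indicator_of_notMem hy, indicator_of_notMem hy, zero_mul]

theorem kap_smooth [T2Space M] [CompactSpace M] {e : Ch n M} (he : e ∈ atlas (E n) M) {χ : M → ℝ}
    (hχ : Sm n fun x => ((χ x : ℝ) : ℂ)) (hs : tsupport χ ⊆ e.source) :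
    ContDiff ℝ ∞ (kap e χ) ∧ HasCompactSupport (kap e χ) ∧ tsupport (kap e χ) ⊆ e.target := by
  have h1 : IsSec 0 (fun e y => (fun _ : M => (1 : ℂ)) (e.symm y) : Fam n M ℂ) :=
    (isSec_zero_iff (n := n) (f := fun _ : M => (1 : ℂ))).1 (fun _ _ => contDiffOn_const)
  obtain ⟨a1, a2, a3⟩ := contDiff_cut h1 he hχ (isClosed_tsupport χ).isCompact hs
  have e1 : (Set.indicator e.target fun y => ((χ (e.symm y) : ℝ) : ℂ) *
      (fun e y => (fun _ : M => (1 : ℂ)) (e.symm y) : Fam n M ℂ) e y) =
      fun y => ((kap e χ y : ℝ) : ℂ) := by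
    ext y
    rw [kap_coe]
    by_cases hy : y ∈ e.target
    · rw [indicator_of_mem hy, indicator_of_mem hy, mul_one]
    · rw [indicator_of_notMem hy, indicator_of_notMem hy]
  rw [e1] at a1 a2 a3
  have hsupp : Function.support (fun y => ((kap e χ y : ℝ) : ℂ)) = Function.support (kap e χ) := by
    ext y
    simp [Function.mem_support]
  have hts : tsupport (fun y => ((kap e χ y : ℝ) : ℂ)) = tsupport (kap e χ) := by
    unfold tsupport
    rw [hsupp]
  refine ⟨?_, ?_, ?_⟩
  · have : kap e χ = fun y => Complex.reCLM ((kap e χ y : ℝ) : ℂ) := by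
      ext y
      simp
    rw [this]
    exact Complex.reCLM.contDiff.comp a1
  · unfold HasCompactSupport at a2 ⊢
    rwa [hts] at a2
  · rwa [hts] at a3

theorem ext_sub' (k : ℕ) (e : Ch n M) (u u' : E n → ℂ) :
    (ext k e (fun y => u y - u' y) : Fam n M ℂ) = ext k e u - ext k e u' := by
  funext e' y
  simp only [Pi.sub_apply]
  unfold Pool.Agent.helper63.NU.ext
  split_ifs
  · ring
  · ring

variable [CompactSpace M] [T2Space M]
variable [MeasurableSpace M] [BorelSpace M] {μ : Measure M} {φ : Fam n M ℝ}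

theorem hasCompactSupport_of_subset {u : E n → ℂ} {K : Set (E n)} (hK : IsCompact K)
    (h : tsupport u ⊆ K) : HasCompactSupport u :=
  hK.of_isClosed_subset (isClosed_tsupport u) h

theorem exists_w (hφ : IsWeight 1 φ) (hμ : IsDens μ φ) {k : ℕ} {ψ : Fam n M ℝ}
    (hψ : IsPos (k + 1) ψ) {v : ℕ → Fam n M ℂ} (hv : ∀ i, IsSec k (v i))
    (hcau : ∀ ε > 0, ∃ N, ∀ i ≥ N, ∀ i' ≥ N, (ip μ φ ψ (v i - v i') (v i - v i')).re ≤ ε)
    (horth : ∀ u : Fam n M ℂ, IsSec k u →
      Tendsto (fun i => ip μ φ ψ (v i) (box ψ u)) atTop (𝓝 0)) :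
    ∃ w : ℕ → Fam n M ℂ, (∀ m, IsSec k (w m)) ∧
      (∀ ε > 0, ∃ N, ∀ m ≥ N, ∀ j ≥ N, (ip μ φ ψ (w m - v j) (w m - v j)).re ≤ ε) ∧
      ∀ ε > 0, ∃ N, ∀ m ≥ N, ∀ m' ≥ N, (dp μ φ ψ (w m - w m') (w m - w m')).re ≤ ε := by
  classical
  have hW := hψ.toIsWeight
  obtain ⟨N, p, χ, hχs, hχ0, hχ1, hχt⟩ :=
    exists_partition (n := n) (M := M) (fun _ => univ) (fun _ => univ_mem)
  set c : Fin N → Ch n M := fun i => chartAt (E n) (p i) with hcdef
  have hc : ∀ i, c i ∈ atlas (E n) M := fun i => chart_mem_atlas (E n) (p i)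
  have hsupp : ∀ i, tsupport (χ i) ⊆ (c i).source := fun i => (hχt i).trans inter_subset_right
  have hF : ∀ i, ∃ F, LimIn ψ v (c i) F := fun i => exists_limIn hφ hμ hψ hv hcau (hc i)
  choose F hF using hF
  set κ : Fin N → E n → ℝ := fun i => kap (c i) (χ i) with hκdef
  have hκ : ∀ i, ContDiff ℝ ∞ (κ i) ∧ HasCompactSupport (κ i) ∧ tsupport (κ i) ⊆ (c i).target :=
    fun i => kap_smooth (hc i) (hχs i) (hsupp i)
  have hloc := fun i => locH1 (c i).open_target (hψ.smooth (c i) (hc i)) (hψ.pos (c i) (hc i))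
    (r := fun y => F i y * (Real.exp (ψ (c i) y / 2) : ℂ))
    (fun K hK hKe => (hF i).loc hW (hc i) K hK hKe)
    (fun u hu huc hus => (hF i).weak hφ hμ hψ hv horth (hc i) u hu huc hus)
    (hκ i).1 (hκ i).2.1 (hκ i).2.2
  choose K hKc hKt u hu hus hu2 hudb using hloc
  have huc : ∀ i m, HasCompactSupport (u i m) := fun i m =>
    hasCompactSupport_of_subset (hKc i) (hus i m)
  have hext : ∀ i m, IsSec k (ext k (c i) (u i m) : Fam n M ℂ) := fun i m =>
    ext_isSec k (hc i) (hu i m) (huc i m) ((hus i m).trans (hKt i))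
  refine ⟨fun m => ∑ i, ext k (c i) (u i m), fun m => IsSec.sum _ fun i _ => hext i m, ?_, ?_⟩
  · -- approximation
    -- the functions `u i m - κ i v j`
    set d : Fin N → ℕ → ℕ → E n → ℂ := fun i m j y => u i m y - ((κ i y : ℝ) : ℂ) * v j (c i) y
      with hd
    set K' : Fin N → Set (E n) := fun i => K i ∪ tsupport (κ i) with hK'
    have hK'c : ∀ i, IsCompact (K' i) := fun i => (hKc i).union (hκ i).2.1
    have hK't : ∀ i, K' i ⊆ (c i).target := fun i => union_subset (hKt i) (hκ i).2.2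
    have hcut := fun i j => contDiff_cut (hv j) (hc i) (hχs i) (isClosed_tsupport (χ i)).isCompact
      (hsupp i)
    have hcuteq : ∀ i j, (Set.indicator (c i).target fun y =>
        ((χ i ((c i).symm y) : ℝ) : ℂ) * v j (c i) y) = fun y => ((κ i y : ℝ) : ℂ) * v j (c i) y :=
      fun i j => funext fun y => kap_mul (c i) (χ i) (v j (c i)) y
    have hcd : ∀ i j, ContDiff ℝ ∞ (fun y => ((κ i y : ℝ) : ℂ) * v j (c i) y) := fun i j => by
      rw [← hcuteq]
      exact (hcut i j).1
    have hdsm : ∀ i m j, ContDiff ℝ ∞ (d i m j) := fun i m j => (hu i m).sub (hcd i j)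
    have hdsupp : ∀ i m j, tsupport (d i m j) ⊆ K' i := by
      intro i m j
      refine closure_minimal (fun y hy => ?_) (hK'c i).isClosed
      by_contra hn
      rw [hK', mem_union, not_or] at hn
      refine hy ?_
      simp only [hd]
      rw [image_eq_zero_of_notMem_tsupport (fun h => hn.1 (hus i m h)),
        image_eq_zero_of_notMem_tsupport hn.2, Complex.ofReal_zero, zero_mul, sub_zero]
    have hdsec : ∀ i m j, IsSec k (ext k (c i) (d i m j) : Fam n M ℂ) := fun i m j =>
      ext_isSec k (hc i) (hdsm i m j) (hasCompactSupport_of_subset (hK'c i) (hdsupp i m j))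
        ((hdsupp i m j).trans (hK't i))
    have hC := fun i => ip_ext_le hφ hμ hψ (hc i) (hK'c i) (hK't i)
    choose C hC0 hC using hC
    -- bound of `κ (r - v j)`
    have hB : ∀ i, ∃ B : ℝ, 0 < B ∧ ∀ G : E n → ℂ, MemLp G 2 (volume.restrict (c i).target) →
        MemLp (fun y => G y * (((κ i y : ℝ) : ℂ) * (Real.exp (ψ (c i) y / 2) : ℂ))) 2
          (volume.restrict (tsupport (κ i))) ∧
        ∫ y in tsupport (κ i), ‖G y * (((κ i y : ℝ) : ℂ) * (Real.exp (ψ (c i) y / 2) : ℂ))‖ ^ 2 ≤
          B * ∫ y in (c i).target, ‖G y‖ ^ 2 := fun i =>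
      exists_mul_bound (c i).open_target (hκ i).2.1 (hκ i).2.2
        ((Complex.continuous_ofReal.comp_continuousOn (hκ i).1.continuous.continuousOn).mul
          (contOn_exp hW (hc i)))
    choose B hB0 hB using hB
    -- global versions
    have hGl : ∀ i (G : E n → ℂ), MemLp G 2 (volume.restrict (c i).target) →
        MemLp (fun y => G y * (((κ i y : ℝ) : ℂ) * (Real.exp (ψ (c i) y / 2) : ℂ))) 2 volume ∧
        ∫ y, ‖G y * (((κ i y : ℝ) : ℂ) * (Real.exp (ψ (c i) y / 2) : ℂ))‖ ^ 2 ≤
          B i * ∫ y in (c i).target, ‖G y‖ ^ 2 := by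
      intro i G hG
      obtain ⟨b1, b2⟩ := hB i G hG
      have hz : ∀ y ∉ tsupport (κ i),
          G y * (((κ i y : ℝ) : ℂ) * (Real.exp (ψ (c i) y / 2) : ℂ)) = 0 := by
        intro y hy
        rw [image_eq_zero_of_notMem_tsupport hy, Complex.ofReal_zero, zero_mul, mul_zero]
      have hind : (tsupport (κ i)).indicator (fun y => G y * (((κ i y : ℝ) : ℂ) *
          (Real.exp (ψ (c i) y / 2) : ℂ))) = fun y => G y * (((κ i y : ℝ) : ℂ) *
          (Real.exp (ψ (c i) y / 2) : ℂ)) := by
        ext y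
        by_cases hy : y ∈ tsupport (κ i)
        · rw [indicator_of_mem hy]
        · rw [indicator_of_notMem hy, hz y hy]
      refine ⟨?_, ?_⟩
      · rw [← hind]
        exact (memLp_indicator_iff_restrict (hκ i).2.1.measurableSet).2 b1
      · rw [setIntegral_eq_integral_of_forall_compl_eq_zero (fun y hy => by
          rw [hz y hy, norm_zero]; norm_num)] at b2
        exact b2
    set A1 : Fin N → ℕ → ℝ := fun i m => ∫ y, ‖u i m y - ((κ i y : ℝ) : ℂ) *
      (F i y * (Real.exp (ψ (c i) y / 2) : ℂ))‖ ^ 2 with hA1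
    set A2 : Fin N → ℕ → ℝ := fun i j => ∫ y in (c i).target, ‖wf ψ (v j) (c i) y - F i y‖ ^ 2
      with hA2
    have hest : ∀ i m j, ∫ y, ‖d i m j y‖ ^ 2 ≤ 2 * A1 i m + 2 * (B i * A2 i j) := by
      intro i m j
      have m1 : MemLp (u i m) 2 volume := (hu i m).continuous.memLp_of_hasCompactSupport (huc i m)
      obtain ⟨m2, _⟩ := hGl i (F i) (hF i).1
      have m3 : MemLp (fun y => wf ψ (v j) (c i) y - F i y) 2 (volume.restrict (c i).target) :=
        (sec_memLp hφ hμ hW (hv j) (hc i)).1.sub (hF i).1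
      obtain ⟨m4, m5⟩ := hGl i _ m3
      have m6 : MemLp (fun y => u i m y - ((κ i y : ℝ) : ℂ) *
          (F i y * (Real.exp (ψ (c i) y / 2) : ℂ))) 2 volume := by
        have e1 : (fun y => u i m y - ((κ i y : ℝ) : ℂ) *
          (F i y * (Real.exp (ψ (c i) y / 2) : ℂ))) = u i m - fun y => F i y *
            (((κ i y : ℝ) : ℂ) * (Real.exp (ψ (c i) y / 2) : ℂ)) := by
          ext y
          simp only [Pi.sub_apply]
          ring
        rw [e1]
        exact m1.sub m2
      have e2 : ∀ y, d i m j y = (u i m y - ((κ i y : ℝ) : ℂ) *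
          (F i y * (Real.exp (ψ (c i) y / 2) : ℂ))) +
          -((wf ψ (v j) (c i) y - F i y) *
            (((κ i y : ℝ) : ℂ) * (Real.exp (ψ (c i) y / 2) : ℂ))) := by
        intro y
        simp only [hd]
        rw [← wf_mul_exp ψ (v j) (c i) y]
        ring
      have m7 := integral_sq_add_le m6 m4.neg
      simp only [Pi.neg_apply, norm_neg] at m7
      simp only [e2]
      refine m7.trans ?_
      have : 2 * ∫ y, ‖(wf ψ (v j) (c i) y - F i y) * (((κ i y : ℝ) : ℂ) *
          (Real.exp (ψ (c i) y / 2) : ℂ))‖ ^ 2 ≤ 2 * (B i * A2 i j) :=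
        mul_le_mul_of_nonneg_left m5 (by norm_num)
      linarith
    have hip : ∀ m j, (ip μ φ ψ (∑ i, ext k (c i) (u i m) - v j)
        (∑ i, ext k (c i) (u i m) - v j)).re ≤
        2 ^ N * ∑ i, C i * (2 * A1 i m) + 2 ^ N * ∑ i, C i * (2 * (B i * A2 i j)) := by
      intro m j
      have heq : ∀ e ∈ atlas (E n) M, ∀ y ∈ e.target,
          (∑ i, ext k (c i) (u i m) - v j : Fam n M ℂ) e y =
            (∑ i, ext k (c i) (d i m j) : Fam n M ℂ) e y := by
        intro e he y hy
        have h1 : ∀ i, (ext k (c i) (d i m j) : Fam n M ℂ) e y =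
            (ext k (c i) (u i m) : Fam n M ℂ) e y - ((χ i (e.symm y) : ℝ) : ℂ) * v j e y := by
          intro i
          have h2 := ext_cut (hv j) (hc i) (hsupp i) he hy
          rw [hcuteq] at h2
          rw [← h2]
          simp only [hd]
          rw [ext_sub']
          rfl
        have h3 : ((∑ i, χ i (e.symm y) : ℝ) : ℂ) = 1 := by rw [hχ1, Complex.ofReal_one]
        rw [Complex.ofReal_sum] at h3
        simp only [Pi.sub_apply, Finset.sum_apply]
        rw [Finset.sum_congr rfl fun i _ => h1 i, Finset.sum_sub_distrib, ← Finset.sum_mul, h3,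
          one_mul]
      rw [ip_congr heq heq]
      have h4 := (form_ip (n := n) (M := M) hφ hμ hW).sum_self_le Finset.univ
        (fun i => (⟨ext k (c i) (d i m j), hdsec i m j⟩ : secM n M k))
      simp only [Submodule.coe_sum, Finset.card_univ, Fintype.card_fin] at h4
      refine h4.trans ?_
      rw [← mul_add, ← Finset.sum_add_distrib]
      refine mul_le_mul_of_nonneg_left (Finset.sum_le_sum fun i _ => ?_) (by positivity)
      refine (hC i _ (hdsm i m j) (hdsupp i m j)).trans ?_
      rw [← mul_add]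
      exact mul_le_mul_of_nonneg_left (hest i m j) (hC0 i).le
    intro ε hε
    have t1 : Tendsto (fun m => 2 ^ N * ∑ i, C i * (2 * A1 i m)) atTop (𝓝 0) := by
      have : Tendsto (fun m => (2 : ℝ) ^ N * ∑ i, C i * (2 * A1 i m)) atTop
          (𝓝 (2 ^ N * ∑ i, C i * (2 * 0))) :=
        (tendsto_finsetSum _ fun i _ => ((hu2 i).const_mul 2).const_mul (C i)).const_mul _
      simpa using this
    have t2 : Tendsto (fun j => 2 ^ N * ∑ i, C i * (2 * (B i * A2 i j))) atTop (𝓝 0) := by
      have : Tendsto (fun j => (2 : ℝ) ^ N * ∑ i, C i * (2 * (B i * A2 i j))) atTop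
          (𝓝 (2 ^ N * ∑ i, C i * (2 * (B i * 0)))) :=
        (tendsto_finsetSum _ fun i _ =>
          (((hF i).2.const_mul (B i)).const_mul 2).const_mul (C i)).const_mul _
      simpa using this
    obtain ⟨N1, hN1⟩ := eventually_atTop.1 (t1.eventually (gt_mem_nhds (half_pos hε)))
    obtain ⟨N2, hN2⟩ := eventually_atTop.1 (t2.eventually (gt_mem_nhds (half_pos hε)))
    refine ⟨max N1 N2, fun m hm j hj => (hip m j).trans ?_⟩
    have a1 := hN1 m ((le_max_left _ _).trans hm)
    have a2 := hN2 j ((le_max_right _ _).trans hj)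
    linarith
  · -- Cauchy for the energy
    have hC := fun i => dp_ext_le hφ hμ hψ (hc i) (hKc i) (hKt i)
    choose C hC0 hC using hC
    intro ε hε
    have hS : 0 ≤ ∑ i, C i := Finset.sum_nonneg fun i _ => (hC0 i).le
    set δ : ℝ := ε / (2 ^ N * (n * ∑ i, C i) + 1) with hδ
    have hden : 0 < 2 ^ N * (n * ∑ i, C i) + 1 := by positivity
    have hδ0 : 0 < δ := div_pos hε hden
    have h1 := fun i => hudb i δ hδ0
    choose N0 hN0 using h1
    refine ⟨Finset.univ.sup N0, fun m hm m' hm' => ?_⟩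
    have hcs : ∀ i, tsupport (fun y => u i m y - u i m' y) ⊆ K i := by
      intro i
      refine closure_minimal (fun y hy => ?_) (hKc i).isClosed
      by_contra hn
      refine hy ?_
      simp only
      rw [image_eq_zero_of_notMem_tsupport (fun h => hn (hus i m h)),
        image_eq_zero_of_notMem_tsupport (fun h => hn (hus i m' h)), sub_zero]
    have hsm : ∀ i, ContDiff ℝ ∞ (fun y => u i m y - u i m' y) := fun i => (hu i m).sub (hu i m')
    have hsec : ∀ i, IsSec k (ext k (c i) (fun y => u i m y - u i m' y) : Fam n M ℂ) := fun i =>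
      ext_isSec k (hc i) (hsm i) (hasCompactSupport_of_subset (hKc i) (hcs i))
        ((hcs i).trans (hKt i))
    have heq : (∑ i, ext k (c i) (u i m) - ∑ i, ext k (c i) (u i m') : Fam n M ℂ) =
        ∑ i, ext k (c i) (fun y => u i m y - u i m' y) := by
      rw [← Finset.sum_sub_distrib]
      exact Finset.sum_congr rfl fun i _ => (ext_sub' k (c i) _ _).symm
    rw [heq]
    have h4 := (form_dp (n := n) (M := M) hφ hμ hψ).sum_self_le Finset.univ
      (fun i => (⟨ext k (c i) (fun y => u i m y - u i m' y), hsec i⟩ : secM n M k))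
    simp only [Submodule.coe_sum, Finset.card_univ, Fintype.card_fin] at h4
    refine h4.trans ?_
    have h5 : ∀ i, (dp μ φ ψ (ext k (c i) (fun y => u i m y - u i m' y))
        (ext k (c i) (fun y => u i m y - u i m' y))).re ≤ C i * (n * δ) := by
      intro i
      refine (hC i _ (hsm i) (hcs i)).trans (mul_le_mul_of_nonneg_left ?_ (hC0 i).le)
      have h6 : ∀ j ∈ (Finset.univ : Finset (Fin n)),
          ∫ y, ‖db j (fun y => u i m y - u i m' y) y‖ ^ 2 ≤ δ := by
        intro j _
        have h7 : ∀ y, db j (fun y => u i m y - u i m' y) y = db j (u i m) y - db j (u i m') y :=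
          fun y => db_sub ((hu i m).differentiable (by simp) y)
            ((hu i m').differentiable (by simp) y) j
        simp only [h7]
        exact hN0 i m ((Finset.le_sup (Finset.mem_univ i)).trans hm) m'
          ((Finset.le_sup (Finset.mem_univ i)).trans hm') j
      refine (Finset.sum_le_sum h6).trans ?_
      rw [Finset.sum_const, Finset.card_univ, Fintype.card_fin, nsmul_eq_mul]
    have h8 : 2 ^ N * ∑ i, (dp μ φ ψ (ext k (c i) (fun y => u i m y - u i m' y))
        (ext k (c i) (fun y => u i m y - u i m' y))).re ≤ 2 ^ N * ∑ i, C i * (n * δ) :=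
      mul_le_mul_of_nonneg_left (Finset.sum_le_sum fun i _ => h5 i) (by positivity)
    refine h8.trans ?_
    rw [← Finset.sum_mul]
    have h9 : 2 ^ N * ((∑ i, C i) * (n * δ)) = (2 ^ N * (n * ∑ i, C i)) * δ := by ring
    rw [h9, hδ]
    rw [mul_div_assoc', div_le_iff₀ hden]
    nlinarith [mul_nonneg hε.le (by positivity : (0:ℝ) ≤ 2 ^ N * (n * ∑ i, C i))]

end Pool.Agent.helper74.NU
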