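import Pool.Agent.helper63.NU.Defs4
import Pool.Agent.helper41.NU.A2
import Pool.Agent.helper70.NU.A7
import Pool.Agent.helper69.NU.A9

set_option autoImplicit false
set_option linter.all false

/-! Module M2a: potential of a holomorphic vector field (helper74). -/

open MeasureTheory Filter Topology Set
open scoped ContDiff Manifold Matrix ENNReal ComplexOrder

noncomputable section

namespace Pool.Agent.helper63.NU

variable {n : ℕ}

namespace M2a

/-- components of a holomorphic map -/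
theorem comp_hol {U : Set (E n)} {a : E n → E n} (ha : DifferentiableOn ℂ a U) (l : Fin n) :
    DifferentiableOn ℂ (fun z => a z l) U := fun y hy =>
  (differentiableWithinAt_pi.1 (ha y hy)) l

theorem dz_hol_hol {U : Set (E n)} (hU : IsOpen U) {f : E n → ℂ} (hf : DifferentiableOn ℂ f U)
    (l : Fin n) : DifferentiableOn ℂ (fun z => dz l f z) U := by
  have h1 : AnalyticOnNhd ℂ f U := osgood hU hf
  have h2 : AnalyticOnNhd ℂ (fderiv ℂ f) U := h1.fderiv
  have h3 : DifferentiableOn ℂ (fun z => fderiv ℂ f z (Pi.single l 1)) U := fun y hy =>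
    ((h2 y hy).differentiableAt.clm_apply (differentiableAt_const _)).differentiableWithinAt
  refine h3.congr fun y hy => ?_
  exact dz_hol ((hf y hy).differentiableAt (hU.mem_nhds hy)) l

end M2a

open M2a in
/-- the potential of a holomorphic vector field -/
theorem vec_pot {U : Set (E n)} (hU : IsOpen U) {ψ : E n → ℝ} (hψ : ContDiffOn ℝ ∞ ψ U)
    (hp : ∀ y ∈ U, (lev ψ y).PosDef) {a : E n → E n} (ha : DifferentiableOn ℂ a U) {y : E n}
    (hy : y ∈ U) :
    (∀ j, rs (lev ψ y) (dbv (fun z => ∑ l, (a z l * dz l (fun z => ((ψ z : ℝ) : ℂ)) z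
      - dz l (fun z => a z l) z)) y) j = a y j) ∧
    bx ψ (fun z => ∑ l, (a z l * dz l (fun z => ((ψ z : ℝ) : ℂ)) z - dz l (fun z => a z l) z)) y
      = ∑ l, (a y l * dz l (fun z => ((ψ z : ℝ) : ℂ)) y - dz l (fun z => a z l) y) := by
  have hψc : ContDiffOn ℝ ∞ (fun z => ((ψ z : ℝ) : ℂ)) U :=
    Complex.ofRealCLM.contDiff.comp_contDiffOn hψ
  have hal : ∀ l, DifferentiableOn ℂ (fun z => a z l) U := comp_hol ha
  have halA : ∀ l, ∀ z ∈ U, DifferentiableAt ℂ (fun z => a z l) z := fun l z hz =>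
    (hal l z hz).differentiableAt (hU.mem_nhds hz)
  have halR : ∀ l, ∀ z ∈ U, DifferentiableAt ℝ (fun z => a z l) z := fun l z hz =>
    (halA l z hz).restrictScalars ℝ
  have hdl : ∀ l, ∀ z ∈ U, DifferentiableAt ℂ (fun z => dz l (fun z => a z l) z) z := fun l z hz =>
    (dz_hol_hol hU (hal l) l z hz).differentiableAt (hU.mem_nhds hz)
  have hdlR : ∀ l, ∀ z ∈ U, DifferentiableAt ℝ (fun z => dz l (fun z => a z l) z) z := fun l z hz =>
    (hdl l z hz).restrictScalars ℝ
  have hdψ : ∀ l, ∀ z ∈ U, DifferentiableAt ℝ (fun z => dz l (fun z => ((ψ z : ℝ) : ℂ)) z) z :=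
    fun l z hz => ((contDiffOn_dz hU hψc l).contDiffAt (hU.mem_nhds hz)).differentiableAt
      (by norm_num)
  -- the derivatives of the potential
  have hdbv : ∀ z ∈ U, ∀ k, dbv (fun z => ∑ l, (a z l * dz l (fun z => ((ψ z : ℝ) : ℂ)) z
      - dz l (fun z => a z l) z)) z k = ∑ l, lev ψ z l k * a z l := by
    intro z hz k
    unfold dbv
    have hm : ∀ l, DifferentiableAt ℝ (fun z => a z l * dz l (fun z => ((ψ z : ℝ) : ℂ)) z) z :=
      fun l => (halR l z hz).mul (hdψ l z hz)
    have hs : ∀ l, DifferentiableAt ℝ (fun z => a z l * dz l (fun z => ((ψ z : ℝ) : ℂ)) z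
      - dz l (fun z => a z l) z) z := fun l => (hm l).sub (hdlR l z hz)
    rw [db_sum (f := fun l z => a z l * dz l (fun z => ((ψ z : ℝ) : ℂ)) z
      - dz l (fun z => a z l) z) Finset.univ (fun l _ => hs l) k]
    refine Finset.sum_congr rfl fun l _ => ?_
    rw [db_sub (hm l) (hdlR l z hz) k, db_mul (halR l z hz) (hdψ l z hz) k,
      db_hol (halA l z hz) k, db_hol (hdl l z hz) k]
    have h2 : ContDiffAt ℝ 2 (fun z => ((ψ z : ℝ) : ℂ)) z :=
      (hψc.contDiffAt (hU.mem_nhds hz)).of_le (by norm_cast)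
    have : lev ψ z l k = db k (dz l (fun z => ((ψ z : ℝ) : ℂ))) z := by
      rw [← dz_db_comm h2 l k]
      rfl
    rw [this]
    have e : db k (fun z => dz l (fun z => ((ψ z : ℝ) : ℂ)) z) z
      = db k (dz l (fun z => ((ψ z : ℝ) : ℂ))) z := rfl
    rw [e]
    ring
  have hrs : ∀ z ∈ U, ∀ j, rs (lev ψ z) (dbv (fun z => ∑ l, (a z l * dz l (fun z => ((ψ z : ℝ) : ℂ)) z
      - dz l (fun z => a z l) z)) z) j = a z j := by
    intro z hz j
    have hdet : IsUnit (lev ψ z).det := (Matrix.isUnit_iff_isUnit_det _).1 (hp z hz).isUnit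
    unfold rs
    have h1 : ∀ k, (lev ψ z)⁻¹ k j * dbv (fun z => ∑ l, (a z l * dz l (fun z => ((ψ z : ℝ) : ℂ)) z
      - dz l (fun z => a z l) z)) z k = ∑ l, lev ψ z l k * (lev ψ z)⁻¹ k j * a z l := by
      intro k
      rw [hdbv z hz k, Finset.mul_sum]
      refine Finset.sum_congr rfl fun l _ => by ring
    simp_rw [h1]
    rw [Finset.sum_comm]
    have h2 : ∀ l, ∑ k, lev ψ z l k * (lev ψ z)⁻¹ k j * a z l
      = (if l = j then 1 else 0) * a z l := by
      intro l
      rw [← Finset.sum_mul]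
      congr 1
      have := congrFun (congrFun (Matrix.mul_nonsing_inv (lev ψ z) hdet) l) j
      rw [Matrix.mul_apply, Matrix.one_apply] at this
      exact this
    simp_rw [h2]
    simp
  refine ⟨hrs y hy, ?_⟩
  unfold bx
  have hev : ∀ j, dz j (fun z => (Real.exp (-ψ z) : ℂ) * rs (lev ψ z) (dbv (fun z => ∑ l,
      (a z l * dz l (fun z => ((ψ z : ℝ) : ℂ)) z - dz l (fun z => a z l) z)) z) j) y
      = (Real.exp (-ψ y) : ℂ) * (dz j (fun z => a z j) y
        - a y j * dz j (fun z => ((ψ z : ℝ) : ℂ)) y) := by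
    intro j
    have h1 : (fun z => (Real.exp (-ψ z) : ℂ) * rs (lev ψ z) (dbv (fun z => ∑ l,
      (a z l * dz l (fun z => ((ψ z : ℝ) : ℂ)) z - dz l (fun z => a z l) z)) z) j)
      =ᶠ[𝓝 y] fun z => (Real.exp (-ψ z) : ℂ) * a z j := by
      filter_upwards [hU.mem_nhds hy] with z hz
      rw [hrs z hz j]
    rw [dz_congr h1 j]
    have hψd : DifferentiableAt ℝ ψ y := (hψ.contDiffAt (hU.mem_nhds hy)).differentiableAt
      (by norm_num)
    have hed : DifferentiableAt ℝ (fun z => (Real.exp (-ψ z) : ℂ)) y :=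
      Complex.ofRealCLM.differentiableAt.comp y (hψd.neg.exp)
    rw [dz_mul hed (halR j y hy) j]
    have h3 := dz_real_comp (g := fun t => Real.exp (-t)) (ψ := ψ) (y := y)
      (by fun_prop) hψd j
    have h4 : deriv (fun t => Real.exp (-t)) (ψ y) = -Real.exp (-ψ y) := by
      have : HasDerivAt (fun t => Real.exp (-t)) (Real.exp (-ψ y) * (-1)) (ψ y) :=
        (hasDerivAt_neg (ψ y)).exp
      rw [this.deriv]; ring
    rw [h4] at h3
    rw [h3]
    push_cast
    ring
  simp_rw [hev]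
  rw [← Finset.mul_sum, ← mul_assoc]
  have he : -(Real.exp (ψ y) : ℂ) * (Real.exp (-ψ y) : ℂ) = -1 := by
    rw [neg_mul, ← Complex.ofReal_mul, ← Real.exp_add]
    simp
  rw [he, neg_one_mul, ← Finset.sum_neg_distrib]
  refine Finset.sum_congr rfl fun l _ => by ring

end Pool.Agent.helper63.NU
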