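import Pool.Agent.helper63.NU.Defs4
import Pool.Agent.helper41.NU.A2
import Pool.Agent.helper85.NU.M0

set_option autoImplicit false
set_option linter.all false

/-! Module M2b: potentials of the linear vector fields on `ℂP^n` (helper74). -/

open MeasureTheory Filter Topology Set
open scoped ContDiff Manifold Matrix ENNReal ComplexOrder

noncomputable section

namespace Pool.Agent.helper63.NU

variable {n : ℕ}

namespace M2b

/-- the derivative of `ins` -/
def dins (i : Fin (n + 1)) : E n →L[ℂ] E (n + 1) :=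
  ContinuousLinearMap.pi fun a => (i.insertNth (0 : E n →L[ℂ] ℂ)
    (fun j => ContinuousLinearMap.proj (R := ℂ) (φ := fun _ : Fin n => ℂ) j) :
      Fin (n + 1) → (E n →L[ℂ] ℂ)) a

theorem dins_same (i : Fin (n + 1)) (v : E n) : dins i v i = 0 := by
  simp [dins]

theorem dins_succ (i : Fin (n + 1)) (v : E n) (j : Fin n) : dins i v (i.succAbove j) = v j := by
  simp [dins]

theorem ins_same (i : Fin (n + 1)) (y : E n) : ins i y i = 1 := by simp [ins]

theorem ins_succ (i : Fin (n + 1)) (y : E n) (j : Fin n) : ins i y (i.succAbove j) = y j := by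
  simp [ins]

theorem hasFDerivAt_ins (i : Fin (n + 1)) (y : E n) : HasFDerivAt (ins i) (dins i) y := by
  rw [hasFDerivAt_pi']
  intro a
  rcases eq_or_ne a i with rfl | ha
  · have h1 : (fun x : E n => ins a x a) = fun _ => 1 := by
      funext x; exact ins_same a x
    rw [h1]
    have h2 : (ContinuousLinearMap.proj (R := ℂ) a).comp (dins a) = (0 : E n →L[ℂ] ℂ) := by
      ext v
      simp [dins_same]
    rw [h2]
    exact hasFDerivAt_const _ _
  · obtain ⟨j, rfl⟩ := Fin.exists_succAbove_eq ha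
    have h1 : (fun x : E n => ins i x (i.succAbove j)) = fun x => x j := by
      funext x; exact ins_succ i x j
    rw [h1]
    have h2 : (ContinuousLinearMap.proj (R := ℂ) (i.succAbove j)).comp (dins i)
        = ContinuousLinearMap.proj (R := ℂ) (φ := fun _ : Fin n => ℂ) j := by
      ext v
      simp [dins_succ]
    rw [h2]
    exact (ContinuousLinearMap.proj (R := ℂ) (φ := fun _ : Fin n => ℂ) j).hasFDerivAt

theorem hasFDerivAt_ins_apply (i a : Fin (n + 1)) (y : E n) :
    HasFDerivAt (fun x => ins i x a) ((ContinuousLinearMap.proj (R := ℂ) a).comp (dins i)) y :=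
  (hasFDerivAt_pi'.1 (hasFDerivAt_ins i y)) a

/-- `∑_j v_j ∂_j F` -/
def dd (v : E n) (F : E n → ℂ) (y : E n) : ℂ := ∑ j, v j * dz j F y

theorem sum_fderiv (T : E n →L[ℂ] ℂ) (v : E n) : ∑ j, v j * T (Pi.single j 1) = T v := by
  conv_rhs => rw [show v = ∑ j, v j • (Pi.single j (1 : ℂ) : E n) by
    funext k
    simp [Finset.sum_apply, Pi.single_apply]]
  rw [map_sum]
  refine Finset.sum_congr rfl fun j _ => ?_
  rw [map_smul, smul_eq_mul]

theorem dd_hol {F : E n → ℂ} {y : E n} (hF : DifferentiableAt ℂ F y) (v : E n) :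
    dd v F y = fderiv ℂ F y v := by
  unfold dd
  simp_rw [dz_hol hF]
  exact sum_fderiv _ v

theorem dd_comp {τ : E n → E n} {f : E n → ℂ} {y : E n} (hτ : DifferentiableAt ℂ τ y)
    (hf : DifferentiableAt ℝ f (τ y)) (v : E n) :
    dd v (fun z => f (τ z)) y = dd (fderiv ℂ τ y v) f (τ y) := by
  unfold dd
  simp_rw [dz_comp hτ hf, Finset.mul_sum]
  rw [Finset.sum_comm]
  refine Finset.sum_congr rfl fun i _ => ?_
  have := sum_fderiv ((ContinuousLinearMap.proj (R := ℂ) (φ := fun _ : Fin n => ℂ) i).comp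
    (fderiv ℂ τ y)) v
  simp only [ContinuousLinearMap.comp_apply, ContinuousLinearMap.proj_apply] at this
  rw [← this, Finset.sum_mul]
  refine Finset.sum_congr rfl fun j _ => by ring

theorem dd_log {g : E n → ℂ} {y : E n} (hg : DifferentiableAt ℂ g y) (h0 : g y ≠ 0) (v : E n) :
    dd v (fun z => ((Real.log (‖g z‖ ^ 2) : ℝ) : ℂ)) y = fderiv ℂ g y v / g y := by
  have hgR : DifferentiableAt ℝ g y := hg.restrictScalars ℝ
  have hc : DifferentiableAt ℝ (fun z => (starRingEnd ℂ) (g z)) y :=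
    Complex.conjCLE.differentiableAt.comp y hgR
  have hn : (fun z => ((‖g z‖ ^ 2 : ℝ) : ℂ)) = fun z => g z * (starRingEnd ℂ) (g z) := by
    funext z
    rw [Complex.mul_conj, Complex.normSq_eq_norm_sq]
  have hnd : DifferentiableAt ℝ (fun z => ‖g z‖ ^ 2) y := by
    have h1 : DifferentiableAt ℝ (fun z => Complex.reCLM (g z * (starRingEnd ℂ) (g z))) y :=
      Complex.reCLM.differentiableAt.comp y (hgR.mul hc)
    refine h1.congr_of_eventuallyEq (Filter.Eventually.of_forall fun z => ?_)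
    show ‖g z‖ ^ 2 = Complex.reCLM (g z * (starRingEnd ℂ) (g z))
    rw [Complex.mul_conj, Complex.normSq_eq_norm_sq]
    exact (Complex.ofReal_re _).symm
  have hpos : ‖g y‖ ^ 2 ≠ 0 := by positivity
  have hj : ∀ j, dz j (fun z => ((Real.log (‖g z‖ ^ 2) : ℝ) : ℂ)) y
      = fderiv ℂ g y (Pi.single j 1) / g y := by
    intro j
    rw [dz_real_comp (g := Real.log) (ψ := fun z => ‖g z‖ ^ 2) (Real.differentiableAt_log hpos)
      hnd j, Real.deriv_log, hn, dz_mul hgR hc j, dz_conj, db_hol hg, dz_hol hg]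
    have hgc : (starRingEnd ℂ) (g y) ≠ 0 := (map_ne_zero _).2 h0
    have : ((‖g y‖ ^ 2 : ℝ) : ℂ) = g y * (starRingEnd ℂ) (g y) := by
      rw [Complex.mul_conj, Complex.normSq_eq_norm_sq]
    rw [Complex.ofReal_inv, this]
    simp only [map_zero, mul_zero, add_zero]
    field_simp
  unfold dd
  simp_rw [hj]
  rw [← sum_fderiv (fderiv ℂ g y) v, Finset.sum_div]
  refine Finset.sum_congr rfl fun j _ => by ring

theorem dd_add {f g : E n → ℂ} {y : E n} (hf : DifferentiableAt ℝ f y)
    (hg : DifferentiableAt ℝ g y) (v : E n) :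
    dd v (fun z => f z + g z) y = dd v f y + dd v g y := by
  unfold dd
  simp_rw [dz_add hf hg, mul_add]
  rw [Finset.sum_add_distrib]

theorem dd_const_mul (c : ℂ) (f : E n → ℂ) (y : E n) (v : E n) :
    dd v (fun z => c * f z) y = c * dd v f y := by
  unfold dd
  simp_rw [dz_const_mul, Finset.mul_sum]
  refine Finset.sum_congr rfl fun j _ => by ring

theorem dd_congr {f g : E n → ℂ} {y : E n} (h : f =ᶠ[𝓝 y] g) (v : E n) : dd v f y = dd v g y := by
  unfold dd
  simp_rw [dz_congr h]

/-- `D ins (ξ^i) = B ŷ - (B ŷ)_i ŷ` -/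
theorem dins_xi (B : Matrix (Fin (n + 1)) (Fin (n + 1)) ℂ) (i : Fin (n + 1)) (y : E n)
    (a : Fin (n + 1)) :
    dins i (xi B i y) a = B.mulVec (ins i y) a - B.mulVec (ins i y) i * ins i y a := by
  rcases eq_or_ne a i with rfl | ha
  · rw [dins_same, ins_same]; ring
  · obtain ⟨j, rfl⟩ := Fin.exists_succAbove_eq ha
    rw [dins_succ, ins_succ]
    unfold xi
    ring

theorem pmap_apply (i i' : Fin (n + 1)) (y : E n) (l : Fin n) :
    pmap 1 i i' y l = ins i y (i'.succAbove l) / ins i y i' := by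
  simp [pmap]

theorem ins_pmap (i i' : Fin (n + 1)) (y : E n) (h : ins i y i' ≠ 0) (a : Fin (n + 1)) :
    ins i' (pmap 1 i i' y) a = ins i y a / ins i y i' := by
  rcases eq_or_ne a i' with rfl | ha
  · rw [ins_same, div_self h]
  · obtain ⟨j, rfl⟩ := Fin.exists_succAbove_eq ha
    rw [ins_succ, pmap_apply]

theorem mulVec_pmap (B : Matrix (Fin (n + 1)) (Fin (n + 1)) ℂ) (i i' : Fin (n + 1)) (y : E n)
    (h : ins i y i' ≠ 0) (a : Fin (n + 1)) :
    B.mulVec (ins i' (pmap 1 i i' y)) a = B.mulVec (ins i y) a / ins i y i' := by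
  simp only [Matrix.mulVec, dotProduct, ins_pmap i i' y h, Finset.sum_div]
  refine Finset.sum_congr rfl fun b _ => by ring

theorem hasFDerivAt_pmap (i i' : Fin (n + 1)) (y : E n) (h : ins i y i' ≠ 0) (l : Fin n) :
    HasFDerivAt (fun z => pmap 1 i i' z l) ((ins i y i')⁻¹ •
      ((ContinuousLinearMap.proj (R := ℂ) (i'.succAbove l)).comp (dins i)
        - pmap 1 i i' y l • (ContinuousLinearMap.proj (R := ℂ) i').comp (dins i))) y := by
  have h1 := (hasFDerivAt_ins_apply i (i'.succAbove l) y).mul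
    ((hasDerivAt_inv h).comp_hasFDerivAt y (hasFDerivAt_ins_apply i i' y))
  have h2 : (fun z => pmap 1 i i' z l)
      = (fun z => ins i z (i'.succAbove l)) * ((fun x => x⁻¹) ∘ fun x => ins i x i') := by
    funext z
    rw [pmap_apply, div_eq_mul_inv]
    rfl
  rw [h2]
  refine h1.congr_fderiv ?_
  ext v
  simp only [ContinuousLinearMap.add_apply, ContinuousLinearMap.smul_apply,
    ContinuousLinearMap.comp_apply, ContinuousLinearMap.sub_apply, ContinuousLinearMap.proj_apply,
    smul_eq_mul, Function.comp_apply, pmap_apply]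
  field_simp
  ring

theorem fderiv_pmap_xi (B : Matrix (Fin (n + 1)) (Fin (n + 1)) ℂ) (i i' : Fin (n + 1)) (y : E n)
    (h : ins i y i' ≠ 0) :
    DifferentiableAt ℂ (pmap 1 i i') y ∧
    fderiv ℂ (pmap 1 i i') y (xi B i y) = xi B i' (pmap 1 i i' y) := by
  have h1 : HasFDerivAt (pmap 1 i i') (ContinuousLinearMap.pi fun l => ((ins i y i')⁻¹ •
      ((ContinuousLinearMap.proj (R := ℂ) (i'.succAbove l)).comp (dins i)
        - pmap 1 i i' y l • (ContinuousLinearMap.proj (R := ℂ) i').comp (dins i)))) y := by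
    rw [hasFDerivAt_pi']
    intro l
    exact hasFDerivAt_pmap i i' y h l
  refine ⟨h1.differentiableAt, ?_⟩
  rw [h1.fderiv]
  funext l
  simp only [ContinuousLinearMap.coe_pi', ContinuousLinearMap.smul_apply,
    ContinuousLinearMap.comp_apply, ContinuousLinearMap.sub_apply, ContinuousLinearMap.proj_apply,
    smul_eq_mul, dins_xi]
  unfold xi
  rw [mulVec_pmap B i i' y h, mulVec_pmap B i i' y h, pmap_apply]
  field_simp
  ring

/-- divergence of the linear vector field -/
theorem div_xi (B : Matrix (Fin (n + 1)) (Fin (n + 1)) ℂ) (i : Fin (n + 1)) (y : E n) :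
    ∑ j, dz j (fun z => xi B i z j) y = B.trace - (n + 1) * B.mulVec (ins i y) i := by
  have hB : ∀ a, HasFDerivAt (fun z => B.mulVec (ins i z) a)
      (∑ b, B a b • (ContinuousLinearMap.proj (R := ℂ) b).comp (dins i)) y := by
    intro a
    have := HasFDerivAt.fun_sum (u := Finset.univ) (fun b _ =>
      (hasFDerivAt_ins_apply i b y).const_mul (B a b))
    exact this
  have hd : ∀ j, dz j (fun z => xi B i z j) y
      = B (i.succAbove j) (i.succAbove j) - B.mulVec (ins i y) i - y j * B i (i.succAbove j) := by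
    intro j
    have h1 : HasFDerivAt (fun z : E n => z j)
        (ContinuousLinearMap.proj (R := ℂ) (φ := fun _ : Fin n => ℂ) j) y :=
      (ContinuousLinearMap.proj (R := ℂ) (φ := fun _ : Fin n => ℂ) j).hasFDerivAt
    have h2 := (hB (i.succAbove j)).sub (h1.mul (hB i))
    have h3 : (fun z => xi B i z j) = (fun z => B.mulVec (ins i z) (i.succAbove j))
        - (fun z : E n => z j) * fun z => B.mulVec (ins i z) i := by
      funext z
      rfl
    rw [← h3] at h2
    rw [dz_hol h2.differentiableAt, h2.fderiv]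
    have h4 : ∀ a, (∑ b, B a b • (ContinuousLinearMap.proj (R := ℂ) b).comp (dins i))
        (Pi.single j 1) = B a (i.succAbove j) := by
      intro a
      rw [ContinuousLinearMap.sum_apply, Fin.sum_univ_succAbove _ i]
      simp only [ContinuousLinearMap.smul_apply, ContinuousLinearMap.comp_apply,
        ContinuousLinearMap.proj_apply, smul_eq_mul, dins_same, dins_succ, mul_zero, zero_add]
      simp [Pi.single_apply]
    simp only [ContinuousLinearMap.sub_apply, ContinuousLinearMap.add_apply,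
      ContinuousLinearMap.smul_apply, h4, ContinuousLinearMap.proj_apply, Pi.single_eq_same,
      smul_eq_mul, mul_one]
    ring
  simp_rw [hd]
  rw [Finset.sum_sub_distrib, Finset.sum_sub_distrib, Finset.sum_const, Finset.card_univ,
    Fintype.card_fin, nsmul_eq_mul]
  have h5 : B.trace = B i i + ∑ j, B (i.succAbove j) (i.succAbove j) := by
    unfold Matrix.trace
    rw [Fin.sum_univ_succAbove _ i]
    rfl
  have h6 : B.mulVec (ins i y) i = B i i + ∑ j, y j * B i (i.succAbove j) := by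
    unfold Matrix.mulVec dotProduct
    rw [Fin.sum_univ_succAbove _ i, ins_same, mul_one]
    congr 1
    refine Finset.sum_congr rfl fun j _ => ?_
    rw [ins_succ]; ring
  rw [h5]
  linear_combination h6

/-- the potential in the chart `i` -/
def pf (ψ : Fam n (CP n) ℝ) (B : Matrix (Fin (n + 1)) (Fin (n + 1)) ℂ) (i : Fin (n + 1))
    (y : E n) : ℂ :=
  ∑ j, (xi B i y j * dz j (fun z => ((ψ (CP.chart i) z : ℝ) : ℂ)) y - dz j (fun z => xi B i z j) y)

theorem pf_eq (ψ : Fam n (CP n) ℝ) (B : Matrix (Fin (n + 1)) (Fin (n + 1)) ℂ) (i : Fin (n + 1))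
    (y : E n) : pf ψ B i y = dd (xi B i y) (fun z => ((ψ (CP.chart i) z : ℝ) : ℂ)) y
      - B.trace + (n + 1) * B.mulVec (ins i y) i := by
  unfold pf dd
  rw [Finset.sum_sub_distrib, div_xi]
  ring

theorem smooth_psi {ψ : Fam n (CP n) ℝ} (hψ : IsWeight 1 ψ) (i : Fin (n + 1)) :
    ContDiff ℝ ∞ (ψ (CP.chart i)) := by
  have := hψ.smooth (CP.chart i) (mem_range_self i)
  rw [CP.chart_target, contDiffOn_univ] at this
  exact this

theorem continuous_ins (i : Fin (n + 1)) : Continuous (ins (n := n) i) :=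
  continuous_iff_continuousAt.2 fun y => (hasFDerivAt_ins i y).continuousAt

theorem pf_trans {ψ : Fam n (CP n) ℝ} (hψ : IsWeight 1 ψ)
    (B : Matrix (Fin (n + 1)) (Fin (n + 1)) ℂ) (i i' : Fin (n + 1)) (y : E n)
    (h : ins i y i' ≠ 0) : pf ψ B i y = pf ψ B i' (pmap 1 i i' y) := by
  have hd' : DifferentiableAt ℝ (fun z => ((ψ (CP.chart i') z : ℝ) : ℂ)) (pmap 1 i i' y) :=
    Complex.ofRealCLM.differentiableAt.comp _
      (((smooth_psi hψ i').contDiffAt).differentiableAt (by norm_num))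
  obtain ⟨hp1, hp2⟩ := fderiv_pmap_xi B i i' y h
  have hg : DifferentiableAt ℂ (fun z => ins i z i') y := (hasFDerivAt_ins_apply i i' y).differentiableAt
  have hgl : DifferentiableAt ℝ (fun z => ((Real.log (‖ins i z i'‖ ^ 2) : ℝ) : ℂ)) y := by
    have h1 : DifferentiableAt ℝ (fun z => ‖ins i z i'‖ ^ 2) y :=
      ((hg.restrictScalars ℝ).norm ℝ h).pow 2
    exact Complex.ofRealCLM.differentiableAt.comp y
      ((Real.differentiableAt_log (by positivity)).comp y h1)
  have hev : (fun z => ((ψ (CP.chart i) z : ℝ) : ℂ)) =ᶠ[𝓝 y]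
      fun z => ((ψ (CP.chart i') (pmap 1 i i' z) : ℝ) : ℂ)
        + (n + 1) * ((Real.log (‖ins i z i'‖ ^ 2) : ℝ) : ℂ) := by
    have hop : IsOpen {z : E n | ins i z i' ≠ 0} :=
      isOpen_ne_fun ((continuous_apply i').comp (continuous_ins i)) continuous_const
    filter_upwards [hop.mem_nhds h] with z hz
    rw [weight_CP hψ i i' z hz]
    push_cast
    ring
  rw [pf_eq, pf_eq, dd_congr hev,
    dd_add (f := fun z => ((ψ (CP.chart i') (pmap 1 i i' z) : ℝ) : ℂ))
      (g := fun z => (n + 1) * ((Real.log (‖ins i z i'‖ ^ 2) : ℝ) : ℂ))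
      (hd'.comp y (hp1.restrictScalars ℝ)) (hgl.const_mul _), dd_const_mul, dd_log hg h,
    dd_comp (τ := pmap 1 i i') (f := fun z => ((ψ (CP.chart i') z : ℝ) : ℂ)) hp1 hd', hp2,
    (hasFDerivAt_ins_apply i i' y).fderiv]
  simp only [ContinuousLinearMap.comp_apply, ContinuousLinearMap.proj_apply]
  rw [dins_xi, mulVec_pmap B i i' y h]
  field_simp
  ring

theorem contDiff_xi (B : Matrix (Fin (n + 1)) (Fin (n + 1)) ℂ) (i : Fin (n + 1)) (j : Fin n) :
    ContDiff ℝ ∞ (fun y => xi B i y j) := by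
  have h1 : ∀ a, ContDiff ℝ ∞ (fun y => B.mulVec (ins (n := n) i y) a) := by
    intro a
    have h2 : ∀ b, ContDiff ℝ ∞ (fun y : E n => B a b * ins i y b) := fun b =>
      contDiff_const.mul ((contDiff_pi.1 (CP.contDiff_ins (𝕜 := ℝ) (n := n) i)) b)
    exact ContDiff.sum (s := Finset.univ) fun b _ => h2 b
  exact (h1 _).sub ((contDiff_apply ℝ ℂ j).mul (h1 _))

end M2b

open M2b in
theorem exists_vB {ψ : Fam n (CP n) ℝ} (hψ : IsWeight 1 ψ)
    (B : Matrix (Fin (n + 1)) (Fin (n + 1)) ℂ) :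
    ∃ v : CP n → ℂ, Sm n v ∧ ∀ i y, v ((CP.chart i).symm y)
      = ∑ j, (xi B i y j * dz j (fun z => ((ψ (CP.chart i) z : ℝ) : ℂ)) y
        - dz j (fun z => xi B i z j) y) := by
  have key : ∀ i y, (fun x => pf ψ B (idx x) (CP.chart (idx x) x)) ((CP.chart i).symm y)
      = pf ψ B i y := by
    intro i y
    have h : ins i y (idx ((CP.chart i).symm y)) ≠ 0 := by
      have := Classical.choose_spec (CP.exists_rep_ne ((CP.chart i).symm y))
      exact (CP.mem_source_chart (idx ((CP.chart i).symm y)) (ins i y) (CP.ins_ne i y)).1 this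
    show pf ψ B (idx ((CP.chart i).symm y)) (CP.chart (idx ((CP.chart i).symm y))
      ((CP.chart i).symm y)) = _
    rw [← pmap_one i _ y h, ← pf_trans hψ B i _ y h]
  refine ⟨fun x => pf ψ B (idx x) (CP.chart (idx x) x), ?_, key⟩
  rintro _ ⟨i, rfl⟩
  rw [CP.chart_target, contDiffOn_univ]
  have : (fun y => (fun x => pf ψ B (idx x) (CP.chart (idx x) x)) ((CP.chart i).symm y))
      = pf ψ B i := funext fun y => key i y
  rw [this]
  unfold pf
  refine ContDiff.sum fun j _ => ContDiff.sub (ContDiff.mul (contDiff_xi B i j) ?_) ?_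
  · exact contDiff_dz (Complex.ofRealCLM.contDiff.comp (smooth_psi hψ i)) j
  · exact contDiff_dz (contDiff_xi B i j) j

end Pool.Agent.helper63.NU
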