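import Pool.Agent.helper74.NU.M2b
import Pool.Agent.helper63.NU.Stub.M2e
import Pool.Agent.helper63.NU.Stub.M2g

set_option autoImplicit false
set_option linter.all false

/-! Module M2h: a Kähler–Einstein weight on `ℂP^n` is a Fubini–Study weight (helper74). -/

open MeasureTheory Filter Topology Set
open scoped ContDiff Manifold Matrix ENNReal ComplexOrder

noncomputable section

namespace Pool.Agent.helper63.NU

variable {n : ℕ}

namespace M2h

/-- `∑_a |(A ŷ)_a|²` -/
def S (A : Matrix (Fin (n + 1)) (Fin (n + 1)) ℂ) (i : Fin (n + 1)) (y : E n) : ℝ :=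
  ∑ a, ‖(A.mulVec (ins i y)) a‖ ^ 2

theorem S_pos {A : Matrix (Fin (n + 1)) (Fin (n + 1)) ℂ} (hA : IsUnit A.det) (i : Fin (n + 1))
    (y : E n) : 0 < S A i y := by
  have h1 : A.mulVec (ins i y) ≠ 0 := by
    intro h
    have h2 := Matrix.mulVec_injective_iff_isUnit.2 ((Matrix.isUnit_iff_isUnit_det A).2 hA)
    exact CP.ins_ne i y (h2 (by rw [Matrix.mulVec_zero]; exact h))
  obtain ⟨a, ha⟩ := Function.ne_iff.1 h1
  refine Finset.sum_pos' (fun _ _ => by positivity) ⟨a, Finset.mem_univ _, ?_⟩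
  have : A.mulVec (ins i y) a ≠ 0 := ha
  positivity

theorem continuous_S (A : Matrix (Fin (n + 1)) (Fin (n + 1)) ℂ) (i : Fin (n + 1)) :
    Continuous (S (n := n) A i) := by
  unfold S
  refine continuous_finsetSum _ fun a _ => ?_
  refine (Continuous.norm ?_).pow 2
  unfold Matrix.mulVec dotProduct
  refine continuous_finsetSum _ fun b _ => continuous_const.mul ?_
  exact (continuous_apply b).comp (M2b.continuous_ins i)

theorem rho_eq {ψ : Fam n (CP n) ℝ} (hψ : IsWeight 1 ψ)
    (A : Matrix (Fin (n + 1)) (Fin (n + 1)) ℂ) (i : Fin (n + 1)) (y : E n) :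
    ∑ a, Fc ψ (A a) (A a) ((CP.chart i).symm y)
      = ((S A i y * Real.exp (-(ψ (CP.chart i) y / (n + 1))) : ℝ) : ℂ) := by
  simp_rw [Fc_eq hψ]
  rw [← Finset.sum_mul]
  push_cast
  congr 1
  unfold S
  push_cast
  refine Finset.sum_congr rfl fun a _ => ?_
  have : lf (A a) i y = A.mulVec (ins i y) a := rfl
  rw [this, Complex.mul_conj, Complex.normSq_eq_norm_sq]
  push_cast
  rfl

theorem dense_ne (i : Fin (n + 1)) : Dense {y : E n | ins i y 0 ≠ 0} := by
  rcases eq_or_ne (0 : Fin (n + 1)) i with rfl | hi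
  · have : {y : E n | ins 0 y 0 ≠ 0} = univ := by
      ext y
      simp [M2b.ins_same]
    rw [this]
    exact dense_univ
  · obtain ⟨j, hj⟩ := Fin.exists_succAbove_eq hi
    have : {y : E n | ins i y 0 ≠ 0} = (fun y : E n => y j) ⁻¹' {0}ᶜ := by
      ext y
      rw [← hj]
      simp [M2b.ins_succ]
    rw [this]
    exact (dense_compl_singleton (0 : ℂ)).preimage (isOpenMap_eval j)

end M2h

open M2h in
/-- a Kähler–Einstein weight on `ℂP^n` is a Fubini–Study weight -/
theorem ke_FS (hn : 0 < n) {ψ : Fam n (CP n) ℝ} (hψ : IsPos 1 ψ) {μ : Measure (CP n)}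
    (hμ : IsDens μ ψ) {c0 : ℝ} (hdl : ∀ x, dl ψ x = c0) :
    ∃ (A : Matrix (Fin (n + 1)) (Fin (n + 1)) ℂ) (κ : ℝ), IsUnit A.det ∧
      ∀ i y, ψ (CP.chart i) y
        = (n + 1) * Real.log (∑ a, ‖(A.mulVec (ins i y)) a‖ ^ 2) + κ := by
  have hw : IsWeight 1 ψ := hψ.toIsWeight
  obtain ⟨A, hA, hA1, hA2⟩ := Fc_onb hw hμ
  -- the function rho in the chart 0
  set f : E n → ℂ := fun z => ∑ a, Fc ψ (A a) (A a) ((CP.chart 0).symm z) with hf
  have hfr : ∀ z, f z = ((S A 0 z * Real.exp (-(ψ (CP.chart 0) z / (n + 1))) : ℝ) : ℂ) := fun z =>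
    rho_eq hw A 0 z
  have hdz : ∀ y j, dz j f y = 0 := fun y j => rho_dz hn hψ hμ hdl hA hA1 hA2 y j
  have hconj : (fun z => (starRingEnd ℂ) (f z)) = f := by
    funext z
    rw [hfr z, Complex.conj_ofReal]
  have hdb : ∀ y j, db j f y = 0 := by
    intro y j
    have h1 := dz_conj f y j
    rw [hconj, hdz] at h1
    exact (map_eq_zero _).1 h1.symm
  have hdf : Differentiable ℝ f := by
    have h1 : ∀ a, ContDiff ℝ ∞ (fun z => Fc ψ (A a) (A a) ((CP.chart 0).symm z)) := by
      intro a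
      have := Fc_sm hw (A a) (A a) (CP.chart 0) (mem_range_self 0)
      rw [CP.chart_target, contDiffOn_univ] at this
      exact this
    exact (ContDiff.sum (s := Finset.univ) fun a _ => h1 a).differentiable (by norm_num)
  have hfd : ∀ y, fderiv ℝ f y = 0 := by
    intro y
    ext v
    rw [fderiv_eq_sum]
    simp [hdz, hdb]
  have hconst : ∀ y, f y = f 0 := fun y => is_const_of_fderiv_eq_zero hdf hfd y 0
  set K : ℝ := S A 0 0 * Real.exp (-(ψ (CP.chart 0) 0 / (n + 1))) with hK
  have hKpos : 0 < K := mul_pos (S_pos hA 0 0) (Real.exp_pos _)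
  have hn1 : ((n : ℝ) + 1) ≠ 0 := by positivity
  have h0 : ∀ y, ψ (CP.chart 0) y = (n + 1) * Real.log (S A 0 y) + -((n + 1) * Real.log K) := by
    intro y
    have h1 : S A 0 y * Real.exp (-(ψ (CP.chart 0) y / (n + 1))) = K := by
      have := hconst y
      rw [hfr y, hfr 0] at this
      exact Complex.ofReal_injective this
    have h2 : Real.log K = Real.log (S A 0 y) + -(ψ (CP.chart 0) y / (n + 1)) := by
      rw [← h1, Real.log_mul (S_pos hA 0 y).ne' (Real.exp_pos _).ne', Real.log_exp]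
    rw [h2]
    field_simp
    ring
  refine ⟨A, -((n + 1) * Real.log K), hA, fun i => ?_⟩
  have hcont1 : Continuous (ψ (CP.chart i)) := (M2b.smooth_psi hw i).continuous
  have hcont2 : Continuous (fun y => (n + 1) * Real.log (S A i y) + -((n + 1) * Real.log K)) :=
    (continuous_const.mul ((continuous_S A i).log fun y => (S_pos hA i y).ne')).add
      continuous_const
  have heq : ψ (CP.chart i) = fun y => (n + 1) * Real.log (S A i y) + -((n + 1) * Real.log K) := by
    refine Continuous.ext_on (dense_ne i) hcont1 hcont2 ?_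
    intro y hy
    have hy' : ins i y 0 ≠ 0 := hy
    have hS : S A 0 (pmap 1 i 0 y) = S A i y / ‖ins i y 0‖ ^ 2 := by
      unfold S
      rw [Finset.sum_div]
      refine Finset.sum_congr rfl fun a _ => ?_
      rw [M2b.mulVec_pmap A i 0 y hy', norm_div, div_pow]
    have hpos : 0 < ‖ins i y 0‖ ^ 2 := by positivity
    show ψ (CP.chart i) y = _
    rw [weight_CP hw i 0 y hy', h0, hS, Real.log_div (S_pos hA i y).ne' hpos.ne']
    ring
  intro y
  exact congrFun heq y

end Pool.Agent.helper63.NU
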